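import Mathlib

/-!
# Haar-random matrices over `ℤ_p` with prescribed support and the Cohen–Lenstra limit

This file only contains the definitions used in the statement.
-/

open MeasureTheory Filter Topology
open scoped ENNReal

noncomputable section

namespace Pool.MP78

variable (p : ℕ) [hp : Fact p.Prime]

/-- `ℤ_p` carries its Borel sigma-algebra. -/
instance instMeasurableSpacePadicInt : MeasurableSpace ℤ_[p] := borel _

instance instBorelSpacePadicInt : BorelSpace ℤ_[p] := ⟨rfl⟩

/-- The Haar probability measure on the additive group of `ℤ_p`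
(Haar measure normalised to give mass `1` to the compact set `ℤ_p`). -/
def haarZp : Measure ℤ_[p] := Measure.addHaarMeasure ⊤

open Classical in
/-- The law of the Haar-random `n × n` matrix supported on `σ = (σ_1, …, σ_n)`, as a probability
measure on the space of families `(x_{(i,j)})` of entries: the entries are independent, the entry
`(i,j)` is Haar distributed when `i ∈ σ_j` and is `0` when `i ∉ σ_j`. -/
def matrixLaw {n : ℕ} (σ : Fin n → Set (Fin n)) : Measure (Fin n × Fin n → ℤ_[p]) :=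
  Measure.pi fun ij => if ij.1 ∈ σ ij.2 then haarZp p else Measure.dirac 0

/-- The matrix whose `(i,j)` entry is `x (i,j)`. -/
def toMatrix {n : ℕ} (x : Fin n × Fin n → ℤ_[p]) : Matrix (Fin n) (Fin n) ℤ_[p] :=
  Matrix.of fun i j => x (i, j)

/-- The cokernel `ℤ_p^n / X ℤ_p^n`. -/
abbrev cok {n : ℕ} (X : Matrix (Fin n) (Fin n) ℤ_[p]) : Type :=
  (Fin n → ℤ_[p]) ⧸ LinearMap.range X.mulVecLin

/-- `c_p = ∏_{i ≥ 1} (1 - p^{-i})`. -/
def cp : ℝ := ∏' i : ℕ, (1 - ((p : ℝ) ^ (i + 1))⁻¹)

/-- The Cohen–Lenstra mass `CL(G) = c_p / #Aut(G)`. -/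
def CL (G : Type) [AddCommGroup G] : ℝ := 1 / (Nat.card (G ≃+ G) : ℝ) * cp p

/-- `cok(X_n)` converges to the Cohen–Lenstra distribution: for every finite abelian `p`-group `G`,
`P(cok(X_n) ≅ G) → CL(G)`. Here `X_n` is the Haar-random matrix supported on `Σ n`. -/
def ConvergesToCL (Sig : ∀ n : ℕ, Fin n → Set (Fin n)) : Prop :=
  ∀ (G : Type) [AddCommGroup G] [Finite G], (∃ m : ℕ, Nat.card G = p ^ m) →
    Tendsto (fun n : ℕ => (matrixLaw p (Sig n)).real
      {x | Nonempty (cok p (toMatrix p x) ≃+ G)}) atTop (𝓝 (CL p G))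

/-- `P(det(X_n mod p) ≠ 0) → c_p`. -/
def ConvergesAtZero (Sig : ∀ n : ℕ, Fin n → Set (Fin n)) : Prop :=
  Tendsto (fun n : ℕ => (matrixLaw p (Sig n)).real
    {x | ((toMatrix p x).map (PadicInt.toZMod : ℤ_[p] → ZMod p)).det ≠ 0}) atTop (𝓝 (cp p))

end Pool.MP78
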