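import Pool.Agent.MP78.Defs

open MeasureTheory Filter Topology
open scoped ENNReal

noncomputable section

namespace Pool.MP78

variable (p : ℕ) [hp : Fact p.Prime]

instance : IsProbabilityMeasure (haarZp p) := by
  constructor
  have := Measure.addHaarMeasure_self (K₀ := (⊤ : TopologicalSpace.PositiveCompacts ℤ_[p]))
  simpa [haarZp] using this

instance : (haarZp p).IsAddHaarMeasure := by
  unfold haarZp; infer_instance

/-- Haar measure on `ℤ_p^n` -/
def haarE (n : ℕ) : Measure (Fin n → ℤ_[p]) := Measure.pi fun _ => haarZp p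

instance (n : ℕ) : IsProbabilityMeasure (haarE p n) := by
  unfold haarE; infer_instance

instance : SecondCountableTopology ℤ_[p] := inferInstance

instance (n : ℕ) : (haarE p n).IsAddHaarMeasure := by
  unfold haarE; infer_instance

instance (n : ℕ) : BorelSpace (Fin n → ℤ_[p]) := inferInstance

/-- preimages of points under a surjective homomorphism to a finite group have equal measure -/
lemma measure_preimage_singleton {C B : Type*} [AddCommGroup C] [MeasurableSpace C]
    [MeasurableAdd C] (μ : Measure C) [IsProbabilityMeasure μ] [μ.IsAddLeftInvariant]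
    [AddCommGroup B] [Finite B] (f : C →+ B) (hf : Function.Surjective f)
    (hm : MeasurableSet (f ⁻¹' {0})) (b : B) :
    μ (f ⁻¹' {b}) = (Nat.card B : ℝ≥0∞)⁻¹ := by
  have hconst : ∀ b, μ (f ⁻¹' {b}) = μ (f ⁻¹' {0}) := by
    intro b
    obtain ⟨c, hc⟩ := hf b
    have : (fun x => (-c) + x) ⁻¹' (f ⁻¹' {0}) = f ⁻¹' {b} := by
      ext x
      simp only [Set.mem_preimage, Set.mem_singleton_iff, map_add, map_neg, hc]
      rw [neg_add_eq_zero, eq_comm]
    rw [← this, measure_preimage_add]
  have hfi : f.ker.FiniteIndex := by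
    have : Finite (C ⧸ f.ker) :=
      Finite.of_equiv B (QuotientAddGroup.quotientKerEquivOfSurjective f hf).symm.toEquiv
    exact AddSubgroup.finiteIndex_of_finite_quotient
  have h := AddSubgroup.index_mul_measure (f.ker) (by exact hm) μ
  rw [hconst]
  have hidx : f.ker.index = Nat.card B := by
    rw [AddSubgroup.index]
    exact Nat.card_congr (QuotientAddGroup.quotientKerEquivOfSurjective f hf).toEquiv
  rw [hidx, measure_univ] at h
  have h' : (Nat.card B : ℝ≥0∞) * μ (f ⁻¹' {0}) = 1 := h
  exact ENNReal.eq_inv_of_mul_eq_one_left (by rw [mul_comm]; exact h')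

end Pool.MP78
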