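import Pool.Agent.MP78.T9

open MeasureTheory Filter Topology
open scoped ENNReal

noncomputable section

namespace Pool.MP78

variable (p : ℕ) [hp : Fact p.Prime]

/-- preimages of sets under a surjective homomorphism to a finite group -/
lemma measure_preimage_set {C B : Type*} [AddCommGroup C] [MeasurableSpace C]
    [MeasurableAdd C] (μ : Measure C) [IsProbabilityMeasure μ] [μ.IsAddLeftInvariant]
    [AddCommGroup B] [Finite B] (f : C →+ B) (hf : Function.Surjective f)
    (hm : ∀ b, MeasurableSet (f ⁻¹' {b})) (T : Set B) :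
    μ (f ⁻¹' T) = (Nat.card T : ℝ≥0∞) / (Nat.card B : ℝ≥0∞) := by
  classical
  have hT : f ⁻¹' T = ⋃ b ∈ T.toFinite.toFinset, f ⁻¹' {b} := by
    ext x; simp
  rw [hT, measure_biUnion_finset]
  · rw [Finset.sum_congr rfl (fun b _ => measure_preimage_singleton μ f hf (hm 0) b)]
    rw [Finset.sum_const, nsmul_eq_mul, ENNReal.div_eq_inv_mul, mul_comm]
    rw [Nat.card_coe_set_eq, Set.ncard_eq_toFinset_card T T.toFinite]
  · intro a _ b _ hab
    rw [Function.onFun, Set.disjoint_left]
    intro x hx hx'
    simp only [Set.mem_preimage, Set.mem_singleton_iff] at hx hx'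
    exact hab (hx.symm.trans hx')
  · intro b _; exact hm b

/-- vectors of `(Z/p)^k`-bases counted with an arbitrary index type -/
lemma card_linInd {κ : Type*} [Fintype κ] (k : ℕ) (hκ : Fintype.card κ = k)
    {W : Type*} [AddCommGroup W] [Module (ZMod p) W] [Finite W]
    (hW : Module.finrank (ZMod p) W = k) :
    Nat.card {w : κ → W // LinearIndependent (ZMod p) w} = ∏ i : Fin k, (p ^ k - p ^ (i : ℕ)) := by
  have : Fintype W := Fintype.ofFinite W
  have h1 := card_linearIndependent (K := ZMod p) (V := W) (k := k) (by rw [hW])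
  rw [hW, ZMod.card] at h1
  rw [← h1]
  let e : κ ≃ Fin k := Fintype.equivFinOfCardEq hκ
  exact Nat.card_congr ((Equiv.arrowCongr e (Equiv.refl W)).subtypeEquiv (fun w => by
    exact (linearIndependent_equiv (R := ZMod p) e.symm (f := w)).symm))

end Pool.MP78
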