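import Pool.Agent.MP78.T10

open MeasureTheory Filter Topology
open scoped ENNReal

noncomputable section

namespace Pool.MP78

variable (p : ℕ) [hp : Fact p.Prime]

lemma smul_agree {W : Type*} [AddCommGroup W] [Module ℤ_[p] W] [Module (ZMod p) W]
    (c : ℤ_[p]) (x : W) : c • x = (PadicInt.toZMod c) • x := by
  have hpW : p • x = 0 := by
    rw [← Nat.cast_smul_eq_nsmul (ZMod p)]
    simp
  have h1 : c - ((PadicInt.toZMod c).val : ℤ_[p]) ∈ RingHom.ker (PadicInt.toZMod (p := p)) := by
    rw [RingHom.mem_ker, map_sub, map_natCast, ZMod.natCast_zmod_val, sub_self]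
  rw [PadicInt.ker_toZMod, PadicInt.maximalIdeal_eq_span_p, Ideal.mem_span_singleton] at h1
  obtain ⟨d, hd⟩ := h1
  have h2 : c = ((PadicInt.toZMod c).val : ℤ_[p]) + d * p := by
    rw [mul_comm, ← hd]; ring
  have h3 : c • x = (((PadicInt.toZMod c).val : ℤ_[p]) + d * p) • x := by rw [← h2]
  rw [h3, add_smul, mul_smul, Nat.cast_smul_eq_nsmul, Nat.cast_smul_eq_nsmul, hpW, smul_zero,
    add_zero]
  conv_rhs => rw [← ZMod.natCast_zmod_val (PadicInt.toZMod c)]
  rw [Nat.cast_smul_eq_nsmul]

lemma span_agree {W : Type*} [AddCommGroup W] [Module ℤ_[p] W] [Module (ZMod p) W]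
    (S : Set W) (x : W) : x ∈ Submodule.span ℤ_[p] S ↔ x ∈ Submodule.span (ZMod p) S := by
  constructor
  · intro hx
    induction hx using Submodule.span_induction with
    | mem x hx => exact Submodule.subset_span hx
    | zero => exact Submodule.zero_mem _
    | add x y _ _ hx hy => exact Submodule.add_mem _ hx hy
    | smul c x _ hx =>
      rw [smul_agree]
      exact Submodule.smul_mem _ _ hx
  · intro hx
    induction hx using Submodule.span_induction with
    | mem x hx => exact Submodule.subset_span hx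
    | zero => exact Submodule.zero_mem _
    | add x y _ _ hx hy => exact Submodule.add_mem _ hx hy
    | smul c x _ hx =>
      have : c • x = ((c.val : ℕ) : ℤ_[p]) • x := by
        rw [smul_agree, map_natCast, ZMod.natCast_zmod_val]
      rw [this]
      exact Submodule.smul_mem _ _ hx

lemma card_span_eq_top' {κ : Type*} [Fintype κ] (k : ℕ) (hκ : Fintype.card κ = k)
    {W : Type*} [AddCommGroup W] [Module ℤ_[p] W] [Finite W] [Module (ZMod p) W]
    (hW : Nat.card W = p ^ k) :
    Nat.card {w : κ → W // Submodule.span ℤ_[p] (Set.range w) = ⊤}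
      = ∏ i : Fin k, (p ^ k - p ^ (i : ℕ)) := by
  have hfr : Module.finrank (ZMod p) W = k := by
    have h1 := FiniteField.pow_finrank_eq_natCard p W
    rw [hW] at h1
    exact Nat.pow_right_injective hp.out.two_le h1
  rw [← card_linInd p k hκ hfr]
  apply Nat.card_congr
  apply Equiv.subtypeEquivRight
  intro w
  rw [Submodule.eq_top_iff']
  constructor
  · intro h
    exact linearIndependent_of_top_le_span_of_card_eq_finrank
      (fun x _ => (span_agree p _ x).mp (h x)) (by rw [hκ, hfr])
  · intro h x
    rw [span_agree, h.span_eq_top_of_card_eq_finrank' (by rw [hκ, hfr])]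
    trivial

/-- number of generating tuples of an elementary abelian group, as a `ℤ_p`-module -/
lemma card_span_eq_top {κ : Type*} [Fintype κ] (k : ℕ) (hκ : Fintype.card κ = k)
    {W : Type*} [AddCommGroup W] [Module ℤ_[p] W] [Finite W] (hpW : ∀ x : W, p • x = 0)
    (hW : Nat.card W = p ^ k) :
    Nat.card {w : κ → W // Submodule.span ℤ_[p] (Set.range w) = ⊤}
      = ∏ i : Fin k, (p ^ k - p ^ (i : ℕ)) :=
  @card_span_eq_top' p hp κ _ k hκ W _ _ _ (AddCommGroup.zmodModule hpW) hW

end Pool.MP78
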