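import Pool.Agent.MP78.T11

open MeasureTheory Filter Topology
open scoped ENNReal

noncomputable section

namespace Pool.MP78

variable (p : ℕ) [hp : Fact p.Prime]

/-- multiplication by `p` -/
def mulp (k : ℕ) : (Fin k → ℤ_[p]) →ₗ[ℤ_[p]] (Fin k → ℤ_[p]) :=
  LinearMap.lsmul ℤ_[p] (Fin k → ℤ_[p]) (p : ℤ_[p])

lemma mulp_apply (k : ℕ) (x : Fin k → ℤ_[p]) : mulp p k x = (p : ℤ_[p]) • x := rfl

lemma mulp_injective (k : ℕ) : Function.Injective (mulp p k) := by
  intro x y h
  rw [mulp_apply, mulp_apply] at h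
  have hp0 : (p : ℤ_[p]) ≠ 0 := by exact_mod_cast hp.out.ne_zero
  exact smul_right_injective _ hp0 h

lemma range_mulp (k : ℕ) :
    (LinearMap.range (mulp p k)).toAddSubgroup = (red p k).ker := by
  ext x
  constructor
  · rintro ⟨y, rfl⟩
    rw [AddMonoidHom.mem_ker, mulp_apply, red_smul]
    simp
  · intro hx
    obtain ⟨y, rfl⟩ := red_eq_zero p (AddMonoidHom.mem_ker.mp hx)
    exact ⟨y, rfl⟩

lemma index_range_mulp (k : ℕ) :
    (LinearMap.range (mulp p k)).toAddSubgroup.index = p ^ k := by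
  rw [range_mulp, AddSubgroup.index]
  rw [Nat.card_congr (QuotientAddGroup.quotientKerEquivOfSurjective (red p k)
    (red_surjective p k)).toEquiv]
  simp

lemma card_quot_map (k : ℕ) (M : Submodule ℤ_[p] (Fin k → ℤ_[p])) :
    Nat.card ((Fin k → ℤ_[p]) ⧸ M.map (mulp p k))
      = Nat.card ((Fin k → ℤ_[p]) ⧸ M) * p ^ k := by
  have h1 : (M.map (mulp p k)).toAddSubgroup
      = M.toAddSubgroup.map (mulp p k).toAddMonoidHom := rfl
  have h2 : (LinearMap.range (mulp p k)).toAddSubgroup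
      = (⊤ : AddSubgroup (Fin k → ℤ_[p])).map (mulp p k).toAddMonoidHom := by
    ext x; simp
  have h3 := AddSubgroup.relIndex_map_map_of_injective (f := (mulp p k).toAddMonoidHom)
    M.toAddSubgroup ⊤ (mulp_injective p k)
  have h4 : (M.map (mulp p k)).toAddSubgroup ≤ (LinearMap.range (mulp p k)).toAddSubgroup :=
    LinearMap.map_le_range
  have h5 := AddSubgroup.relIndex_mul_index h4
  rw [index_range_mulp, h2, h1, h3, AddSubgroup.relIndex_top_right] at h5
  exact h5.symm

lemma card_W (k : ℕ) (M : Submodule ℤ_[p] (Fin k → ℤ_[p])) [Finite ((Fin k → ℤ_[p]) ⧸ M)] :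
    Nat.card (M.map (M.map (mulp p k)).mkQ) = p ^ k := by
  set P := M.map (mulp p k) with hP
  have hPM : P ≤ M := by
    rintro _ ⟨x, hx, rfl⟩
    exact M.smul_mem _ hx
  have h1 := Submodule.card_eq_card_quotient_mul_card (M.map P.mkQ)
  have h2 : Nat.card (((Fin k → ℤ_[p]) ⧸ P) ⧸ M.map P.mkQ) = Nat.card ((Fin k → ℤ_[p]) ⧸ M) :=
    Nat.card_congr (Submodule.quotientQuotientEquivQuotient P M hPM).toEquiv
  have h3 : Nat.card ((Fin k → ℤ_[p]) ⧸ M) ≠ 0 := Nat.card_pos.ne'
  have h4 := card_quot_map p k M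
  rw [← hP, h1, h2] at h4
  rw [mul_comm] at h4
  exact Nat.eq_of_mul_eq_mul_left (Nat.pos_of_ne_zero h3) h4

/-- number of tuples in `E / pM` generating `M / pM` -/
lemma card_T {κ : Type*} [Fintype κ] (k : ℕ) (hκ : Fintype.card κ = k)
    (M : Submodule ℤ_[p] (Fin k → ℤ_[p])) [Finite ((Fin k → ℤ_[p]) ⧸ M)] :
    Nat.card {w : κ → (Fin k → ℤ_[p]) ⧸ M.map (mulp p k) //
      Submodule.span ℤ_[p] (Set.range w) = M.map (M.map (mulp p k)).mkQ}
      = ∏ i : Fin k, (p ^ k - p ^ (i : ℕ)) := by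
  set P := M.map (mulp p k) with hP
  set W := M.map P.mkQ with hW
  have hcW : Nat.card W = p ^ k := card_W p k M
  have hfW : Finite W := by
    apply Nat.finite_of_card_ne_zero
    rw [hcW]
    exact pow_ne_zero _ hp.out.ne_zero
  have hpW : ∀ x : W, p • x = 0 := by
    rintro ⟨_, x, hx, rfl⟩
    apply Subtype.ext
    change p • (P.mkQ x) = 0
    rw [← map_nsmul, Submodule.mkQ_apply, Submodule.Quotient.mk_eq_zero]
    refine ⟨x, hx, ?_⟩
    rw [mulp_apply, Nat.cast_smul_eq_nsmul]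
  rw [← card_span_eq_top p k hκ hpW hcW]
  have hkey : ∀ w : κ → W, Submodule.span ℤ_[p] (Set.range (fun j => (w j : _ ⧸ P)))
      = (Submodule.span ℤ_[p] (Set.range w)).map W.subtype := by
    intro w
    rw [Submodule.map_span, ← Set.range_comp]
    rfl
  refine Nat.card_congr
    { toFun := fun w => ⟨fun j => ⟨w.1 j, by
        exact w.2.le (Submodule.subset_span (Set.mem_range_self j))⟩, ?_⟩
      invFun := fun w => ⟨fun j => (w.1 j : _ ⧸ P), ?_⟩
      left_inv := fun w => rfl
      right_inv := fun w => rfl }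
  · apply Submodule.map_injective_of_injective W.subtype_injective
    rw [← hkey, Submodule.map_subtype_top]
    exact w.2
  · rw [hkey, w.2, Submodule.map_subtype_top]

lemma span_eq_iff {κ : Type*} [Fintype κ] (k : ℕ)
    (M : Submodule ℤ_[p] (Fin k → ℤ_[p])) (y : κ → Fin k → ℤ_[p]) :
    Submodule.span ℤ_[p] (Set.range y) = M ↔
      Submodule.span ℤ_[p] (Set.range (fun j => (M.map (mulp p k)).mkQ (y j)))
        = M.map (M.map (mulp p k)).mkQ := by
  set P := M.map (mulp p k) with hP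
  have hPM : P ≤ M := by
    rintro _ ⟨x, hx, rfl⟩
    exact M.smul_mem _ hx
  have hPI : P ≤ (IsLocalRing.maximalIdeal ℤ_[p]) • M := by
    rintro _ ⟨x, hx, rfl⟩
    rw [mulp_apply]
    apply Submodule.smul_mem_smul _ hx
    rw [PadicInt.maximalIdeal_eq_span_p]
    exact Ideal.mem_span_singleton_self _
  have h1 : Submodule.span ℤ_[p] (Set.range (fun j => P.mkQ (y j)))
      = (Submodule.span ℤ_[p] (Set.range y)).map P.mkQ := by
    rw [Submodule.map_span, ← Set.range_comp]
    rfl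
  rw [h1]
  constructor
  · intro h; rw [h]
  · intro h
    have h2 := congrArg (Submodule.comap P.mkQ) h
    rw [Submodule.comap_map_mkQ, Submodule.comap_map_mkQ, sup_eq_right.mpr hPM] at h2
    apply le_antisymm
    · exact le_trans le_sup_right h2.le
    · refine Submodule.le_of_le_smul_of_le_jacobson_bot (I := IsLocalRing.maximalIdeal ℤ_[p])
        (IsNoetherian.noetherian M) (IsLocalRing.maximalIdeal_le_jacobson ⊥) ?_
      calc M ≤ P ⊔ Submodule.span ℤ_[p] (Set.range y) := h2.ge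
        _ ≤ _ := by
          rw [sup_comm]
          exact sup_le_sup_left hPI _

end Pool.MP78
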