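import Pool.Agent.MP78.T12

open MeasureTheory Filter Topology
open scoped ENNReal

noncomputable section

namespace Pool.MP78

variable (p : ℕ) [hp : Fact p.Prime]

lemma prod_pow_sub (k : ℕ) :
    ((∏ i : Fin k, (p ^ k - p ^ (i : ℕ)) : ℕ) : ℝ) = ((p : ℝ) ^ k) ^ k * Q p k := by
  have h1 := one_lt_p p
  rw [Nat.cast_prod, Q, ← Finset.prod_range_reflect]
  rw [← Fin.prod_univ_eq_prod_range (fun j => 1 - ((p : ℝ) ^ (k - 1 - j + 1))⁻¹) k]
  have h2 : ((p : ℝ) ^ k) ^ k = ∏ _i : Fin k, (p : ℝ) ^ k := by simp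
  rw [h2, ← Finset.prod_mul_distrib]
  apply Finset.prod_congr rfl
  intro i _
  have hi := i.2
  have h3 : k - 1 - (i : ℕ) + 1 = k - i := by omega
  rw [h3, Nat.cast_sub (Nat.pow_le_pow_right hp.out.pos hi.le), mul_sub, mul_one]
  push_cast
  congr 1
  have h4 : (p : ℝ) ^ k = (p : ℝ) ^ (k - (i : ℕ)) * (p : ℝ) ^ (i : ℕ) := by
    rw [← pow_add]; congr 1; omega
  have h5 : (p : ℝ) ^ (k - (i : ℕ)) ≠ 0 := by positivity
  rw [h4]
  field_simp

/-- law of a family (indexed by `κ`) of independent Haar vectors of `ℤ_p^k` -/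
def lawK (κ : Type*) [Fintype κ] (k : ℕ) : Measure (κ → Fin k → ℤ_[p]) :=
  Measure.pi fun _ => haarE p k

instance (κ : Type*) [Fintype κ] (k : ℕ) : IsProbabilityMeasure (lawK p κ k) := by
  unfold lawK; infer_instance

instance (κ : Type*) [Fintype κ] (k : ℕ) : (lawK p κ k).IsAddHaarMeasure := by
  unfold lawK; infer_instance

/-- the reduction of a family modulo `p M` -/
def redM (κ : Type*) (k : ℕ) (P : Submodule ℤ_[p] (Fin k → ℤ_[p])) :
    (κ → Fin k → ℤ_[p]) →+ (κ → (Fin k → ℤ_[p]) ⧸ P) where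
  toFun y := fun j => P.mkQ (y j)
  map_zero' := by ext; simp
  map_add' x y := by ext; simp

lemma measurableSet_preimage_redM {κ : Type*} [Fintype κ] (k : ℕ)
    (P : Submodule ℤ_[p] (Fin k → ℤ_[p])) [Finite ((Fin k → ℤ_[p]) ⧸ P)]
    (b : κ → (Fin k → ℤ_[p]) ⧸ P) : MeasurableSet ((redM p κ k P) ⁻¹' {b}) := by
  have : (redM p κ k P) ⁻¹' {b} = ⋂ j, (fun y : κ → Fin k → ℤ_[p] => y j) ⁻¹'
      ((P.mkQ.toAddMonoidHom) ⁻¹' {b j}) := by
    ext y
    simp only [Set.mem_preimage, Set.mem_singleton_iff, Set.mem_iInter]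
    exact funext_iff
  rw [this]
  refine MeasurableSet.iInter fun j => ?_
  exact (measurable_pi_apply j) (measurableSet_preimage p _ _)

lemma redM_surjective {κ : Type*} [Fintype κ] (k : ℕ)
    (P : Submodule ℤ_[p] (Fin k → ℤ_[p])) : Function.Surjective (redM p κ k P) := by
  intro b
  choose y hy using fun j => P.mkQ_surjective (b j)
  exact ⟨y, funext hy⟩

lemma finite_quot_map (k : ℕ) (M : Submodule ℤ_[p] (Fin k → ℤ_[p]))
    [Finite ((Fin k → ℤ_[p]) ⧸ M)] : Finite ((Fin k → ℤ_[p]) ⧸ M.map (mulp p k)) := by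
  apply Nat.finite_of_card_ne_zero
  rw [card_quot_map]
  exact mul_ne_zero Nat.card_pos.ne' (pow_ne_zero _ hp.out.ne_zero)

lemma span_eq_preimage {κ : Type*} [Fintype κ] (k : ℕ)
    (M : Submodule ℤ_[p] (Fin k → ℤ_[p])) :
    {y : κ → Fin k → ℤ_[p] | Submodule.span ℤ_[p] (Set.range y) = M} =
      (redM p κ k (M.map (mulp p k))) ⁻¹'
        {w | Submodule.span ℤ_[p] (Set.range w) = M.map (M.map (mulp p k)).mkQ} := by
  ext y
  exact span_eq_iff p k M y

lemma measurableSet_span_eq {κ : Type*} [Fintype κ] (k : ℕ)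
    (M : Submodule ℤ_[p] (Fin k → ℤ_[p])) [Finite ((Fin k → ℤ_[p]) ⧸ M)] :
    MeasurableSet {y : κ → Fin k → ℤ_[p] | Submodule.span ℤ_[p] (Set.range y) = M} := by
  have := finite_quot_map p k M
  rw [span_eq_preimage]
  set T := {w : κ → (Fin k → ℤ_[p]) ⧸ M.map (mulp p k) |
    Submodule.span ℤ_[p] (Set.range w) = M.map (M.map (mulp p k)).mkQ}
  have h : (redM p κ k (M.map (mulp p k))) ⁻¹' T
      = ⋃ b ∈ T, (redM p κ k (M.map (mulp p k))) ⁻¹' {b} := by
    ext x; simp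
  rw [h]
  exact MeasurableSet.biUnion (Set.to_countable T) fun b _ => measurableSet_preimage_redM p k _ b

/-- the probability that `k` Haar vectors span a given submodule -/
lemma lawK_span_eq {κ : Type*} [Fintype κ] (k : ℕ) (hκ : Fintype.card κ = k)
    (M : Submodule ℤ_[p] (Fin k → ℤ_[p])) [Finite ((Fin k → ℤ_[p]) ⧸ M)] :
    (lawK p κ k).real {y | Submodule.span ℤ_[p] (Set.range y) = M}
      = ((Nat.card ((Fin k → ℤ_[p]) ⧸ M) : ℝ) ^ k)⁻¹ * Q p k := by
  have hfin := finite_quot_map p k M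
  have h1 := measure_preimage_set (lawK p κ k) (redM p κ k (M.map (mulp p k)))
    (redM_surjective p k _) (measurableSet_preimage_redM p k _)
    {w | Submodule.span ℤ_[p] (Set.range w) = M.map (M.map (mulp p k)).mkQ}
  rw [Measure.real, span_eq_preimage, h1, ENNReal.toReal_div, ENNReal.toReal_natCast,
    ENNReal.toReal_natCast]
  have h2 := card_T p k hκ M
  have h3 : (Nat.card {w : κ → (Fin k → ℤ_[p]) ⧸ M.map (mulp p k) |
      Submodule.span ℤ_[p] (Set.range w) = M.map (M.map (mulp p k)).mkQ})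
      = ∏ i : Fin k, (p ^ k - p ^ (i : ℕ)) := h2
  have h4 : Nat.card κ = k := by rw [Nat.card_eq_fintype_card, hκ]
  rw [h3, prod_pow_sub, Nat.card_fun, h4, card_quot_map]
  have hp0 : (p : ℝ) ≠ 0 := by exact_mod_cast hp.out.ne_zero
  have hM0 : (Nat.card ((Fin k → ℤ_[p]) ⧸ M) : ℝ) ≠ 0 := by
    exact_mod_cast (Nat.card_pos (α := (Fin k → ℤ_[p]) ⧸ M)).ne'
  push_cast
  rw [mul_pow]
  field_simp

end Pool.MP78
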