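import Pool.Agent.MP78.T13

open MeasureTheory Filter Topology
open scoped ENNReal

noncomputable section

namespace Pool.MP78

variable (p : ℕ) [hp : Fact p.Prime]

/-- additive maps to a finite `p`-group are `ℤ_p`-linear -/
lemma map_smul_of_killed {M N : Type*} [AddCommGroup M] [Module ℤ_[p] M] [AddCommGroup N]
    [Module ℤ_[p] N] (m : ℕ) (hN : ∀ x : N, (p ^ m) • x = 0) (f : M →+ N) (c : ℤ_[p]) (x : M) :
    f (c • x) = c • f x := by
  have h1 := PadicInt.appr_spec m c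
  rw [Ideal.mem_span_singleton] at h1
  obtain ⟨d, hd⟩ := h1
  have h2 : c = ((c.appr m : ℕ) : ℤ_[p]) + ((p ^ m : ℕ) : ℤ_[p]) * d := by
    push_cast
    rw [← hd]; ring
  have h3 : ∀ (L : Type _) [AddCommGroup L] [Module ℤ_[p] L] (y : L),
      c • y = (c.appr m) • y + (p ^ m) • (d • y) := by
    intro L _ _ y
    conv_lhs => rw [h2]
    rw [add_smul, mul_smul, Nat.cast_smul_eq_nsmul, Nat.cast_smul_eq_nsmul]
  have h4 : f (c • x) = (c.appr m) • f x := by
    rw [show c • x = (c.appr m) • x + (p ^ m) • (d • x) by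
      conv_lhs => rw [h2]
      rw [add_smul, mul_smul, Nat.cast_smul_eq_nsmul, Nat.cast_smul_eq_nsmul]]
    rw [map_add, map_nsmul, map_nsmul, hN, add_zero]
  have h5 : c • f x = (c.appr m) • f x := by
    rw [h3 N (f x), hN, add_zero]
  rw [h4, h5]

/-- the kernel counting identity -/
lemma card_surj_ker (k : ℕ) (G : Type*) [AddCommGroup G] [Module ℤ_[p] G]
    (S : Submodule ℤ_[p] (Fin k → ℤ_[p])) :
    Nat.card {f : (Fin k → ℤ_[p]) →ₗ[ℤ_[p]] G // Function.Surjective f ∧ LinearMap.ker f = S}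
      = Nat.card (((Fin k → ℤ_[p]) ⧸ S) ≃ₗ[ℤ_[p]] G) := by
  refine Nat.card_congr
    { toFun := fun f => (Submodule.quotEquivOfEq _ _ f.2.2.symm).trans
        (LinearMap.quotKerEquivOfSurjective f.1 f.2.1)
      invFun := fun e => ⟨e.toLinearMap ∘ₗ S.mkQ, ?_, ?_⟩
      left_inv := ?_
      right_inv := ?_ }
  · exact e.surjective.comp S.mkQ_surjective
  · rw [LinearMap.ker_comp]
    simp
  · rintro ⟨f, hf, rfl⟩
    apply Subtype.ext
    ext x
    rfl
  · intro e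
    ext x
    obtain ⟨x, rfl⟩ := S.mkQ_surjective x
    rfl

lemma card_equiv_eq (k : ℕ) (G : Type*) [AddCommGroup G] [Module ℤ_[p] G]
    (S : Submodule ℤ_[p] (Fin k → ℤ_[p])) (h : Nonempty (((Fin k → ℤ_[p]) ⧸ S) ≃ₗ[ℤ_[p]] G)) :
    Nat.card (((Fin k → ℤ_[p]) ⧸ S) ≃ₗ[ℤ_[p]] G) = Nat.card (G ≃ₗ[ℤ_[p]] G) := by
  obtain ⟨e⟩ := h
  exact Nat.card_congr
    { toFun := fun f => e.symm.trans f
      invFun := fun f => e.trans f
      left_inv := fun f => by ext x; simp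
      right_inv := fun f => by ext x; simp }

/-- additive equivalences onto finite `p`-groups are linear -/
def linOfAdd {M N : Type*} [AddCommGroup M] [Module ℤ_[p] M] [AddCommGroup N]
    [Module ℤ_[p] N] (m : ℕ) (hN : ∀ x : N, (p ^ m) • x = 0) (f : M ≃+ N) : M ≃ₗ[ℤ_[p]] N :=
  f.toLinearEquiv (fun c x => map_smul_of_killed p m hN f.toAddMonoidHom c x)

lemma card_addAut (G : Type*) [AddCommGroup G] [Module ℤ_[p] G] (m : ℕ)
    (hG : ∀ x : G, (p ^ m) • x = 0) : Nat.card (G ≃ₗ[ℤ_[p]] G) = Nat.card (G ≃+ G) :=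
  Nat.card_congr
    { toFun := fun f => f.toAddEquiv
      invFun := fun f => linOfAdd p m hG f
      left_inv := fun f => by ext x; rfl
      right_inv := fun f => by ext x; rfl }

lemma nonempty_equiv_iff (k : ℕ) (G : Type*) [AddCommGroup G] [Module ℤ_[p] G] (m : ℕ)
    (hG : ∀ x : G, (p ^ m) • x = 0) (S : Submodule ℤ_[p] (Fin k → ℤ_[p])) :
    Nonempty (((Fin k → ℤ_[p]) ⧸ S) ≃ₗ[ℤ_[p]] G) ↔ Nonempty (((Fin k → ℤ_[p]) ⧸ S) ≃+ G) := by
  constructor
  · rintro ⟨e⟩; exact ⟨e.toAddEquiv⟩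
  · rintro ⟨e⟩
    exact ⟨linOfAdd p m hG e⟩

end Pool.MP78
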