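import Pool.Agent.MP78.T14

open MeasureTheory Filter Topology
open scoped ENNReal

noncomputable section

namespace Pool.MP78

variable (p : ℕ) [hp : Fact p.Prime]

lemma finite_hom (k : ℕ) (G : Type*) [AddCommGroup G] [Module ℤ_[p] G] [Finite G] :
    Finite ((Fin k → ℤ_[p]) →ₗ[ℤ_[p]] G) :=
  Finite.of_equiv (Fin k → G) ((Pi.basisFun ℤ_[p] (Fin k)).constr ℤ_[p]).toEquiv

/-- the event that the cokernel of a family is isomorphic to `G` -/
def evC (κ : Type*) (k : ℕ) (G : Type*) [AddCommGroup G] : Set (κ → Fin k → ℤ_[p]) :=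
  {y | Nonempty (((Fin k → ℤ_[p]) ⧸ Submodule.span ℤ_[p] (Set.range y)) ≃+ G)}

lemma evC_eq {κ : Type*} [Fintype κ] (k : ℕ) (G : Type*) [AddCommGroup G] [Module ℤ_[p] G]
    (m : ℕ) (hG : ∀ x : G, (p ^ m) • x = 0) :
    evC p κ k G = ⋃ f : {f : (Fin k → ℤ_[p]) →ₗ[ℤ_[p]] G // Function.Surjective f},
      {y | Submodule.span ℤ_[p] (Set.range y) = LinearMap.ker f.1} := by
  ext y
  unfold evC
  simp only [Set.mem_ofPred_eq, Set.mem_iUnion]
  rw [← nonempty_equiv_iff p k G m hG]
  constructor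
  · rintro ⟨e⟩
    refine ⟨⟨e.toLinearMap ∘ₗ (Submodule.mkQ _), e.surjective.comp (Submodule.mkQ_surjective _)⟩,
      ?_⟩
    change _ = LinearMap.ker (e.toLinearMap ∘ₗ (Submodule.mkQ _))
    rw [LinearMap.ker_comp]
    simp
  · rintro ⟨f, hf⟩
    exact ⟨(Submodule.quotEquivOfEq _ _ hf).trans
      (LinearMap.quotKerEquivOfSurjective f.1 f.2)⟩

lemma finite_quot_ker {k : ℕ} {G : Type*} [AddCommGroup G] [Module ℤ_[p] G] [Finite G]
    (f : {f : (Fin k → ℤ_[p]) →ₗ[ℤ_[p]] G // Function.Surjective f}) :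
    Finite ((Fin k → ℤ_[p]) ⧸ LinearMap.ker f.1) :=
  Finite.of_equiv G (LinearMap.quotKerEquivOfSurjective f.1 f.2).symm.toEquiv

lemma measurableSet_evC {κ : Type*} [Fintype κ] (k : ℕ) (G : Type*) [AddCommGroup G]
    [Module ℤ_[p] G] [Finite G] (m : ℕ) (hG : ∀ x : G, (p ^ m) • x = 0) :
    MeasurableSet (evC p κ k G) := by
  rw [evC_eq p k G m hG]
  have := finite_hom p k G
  refine MeasurableSet.iUnion fun f => ?_
  have := finite_quot_ker p f
  exact measurableSet_span_eq p k _

/-- Friedman–Washington formula in product form -/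
lemma fw_formula {κ : Type*} [Fintype κ] (k : ℕ) (hκ : Fintype.card κ = k)
    (G : Type*) [AddCommGroup G]
    [Module ℤ_[p] G] [Finite G] (m : ℕ) (hG : ∀ x : G, (p ^ m) • x = 0) :
    (Nat.card (G ≃+ G) : ℝ) * (lawK p κ k).real (evC p κ k G)
      = (Nat.card {f : (Fin k → ℤ_[p]) →ₗ[ℤ_[p]] G // Function.Surjective f} : ℝ)
        * (((Nat.card G : ℝ) ^ k)⁻¹ * Q p k) := by
  classical
  have hfin := finite_hom p k G
  set H := {f : (Fin k → ℤ_[p]) →ₗ[ℤ_[p]] G // Function.Surjective f} with hH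
  have hHfin : Fintype H := Fintype.ofFinite H
  have hms : ∀ f : H, MeasurableSet
      {y : κ → Fin k → ℤ_[p] | Submodule.span ℤ_[p] (Set.range y) = LinearMap.ker f.1} := by
    intro f
    have := finite_quot_ker p f
    exact measurableSet_span_eq p k _
  have hpt : ∀ y : κ → Fin k → ℤ_[p],
      ∑ f : H, ({y | Submodule.span ℤ_[p] (Set.range y) = LinearMap.ker f.1} :
        Set (κ → Fin k → ℤ_[p])).indicator (fun _ => (1 : ℝ)) y
      = (evC p κ k G).indicator (fun _ => (Nat.card (G ≃+ G) : ℝ)) y := by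
    intro y
    set S := Submodule.span ℤ_[p] (Set.range y) with hS
    have h1 : ∑ f : H, ({y | Submodule.span ℤ_[p] (Set.range y) = LinearMap.ker f.1} :
        Set (κ → Fin k → ℤ_[p])).indicator (fun _ => (1 : ℝ)) y
        = (Nat.card {f : (Fin k → ℤ_[p]) →ₗ[ℤ_[p]] G //
            Function.Surjective f ∧ LinearMap.ker f = S} : ℝ) := by
      have h2 : ∀ f : H, ({y | Submodule.span ℤ_[p] (Set.range y) = LinearMap.ker f.1} :
        Set (κ → Fin k → ℤ_[p])).indicator (fun _ => (1 : ℝ)) y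
          = if LinearMap.ker f.1 = S then 1 else 0 := by
        intro f
        rw [Set.indicator_apply]
        congr 1
        exact propext ⟨fun h => h.symm, fun h => h.symm⟩
      rw [Finset.sum_congr rfl (fun f _ => h2 f), Finset.sum_boole, ← Fintype.card_subtype,
        ← Nat.card_eq_fintype_card]
      norm_cast
      exact Nat.card_congr (Equiv.subtypeSubtypeEquivSubtypeInter
        (fun f : (Fin k → ℤ_[p]) →ₗ[ℤ_[p]] G => Function.Surjective f)
        (fun f => LinearMap.ker f = S))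
    rw [h1, card_surj_ker]
    by_cases hy : y ∈ evC p κ k G
    · rw [Set.indicator_of_mem hy]
      have hy' : Nonempty (((Fin k → ℤ_[p]) ⧸ S) ≃ₗ[ℤ_[p]] G) :=
        (nonempty_equiv_iff p k G m hG S).mpr hy
      rw [card_equiv_eq p k G S hy', card_addAut p G m hG]
    · rw [Set.indicator_of_notMem hy]
      have hy' : IsEmpty (((Fin k → ℤ_[p]) ⧸ S) ≃ₗ[ℤ_[p]] G) := by
        rw [← not_nonempty_iff]
        intro h
        exact hy ((nonempty_equiv_iff p k G m hG S).mp h)
      rw [Nat.card_of_isEmpty]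
      simp
  have h3 : ∑ f : H, (lawK p κ k).real
      {y | Submodule.span ℤ_[p] (Set.range y) = LinearMap.ker f.1}
      = (Nat.card (G ≃+ G) : ℝ) * (lawK p κ k).real (evC p κ k G) := by
    have h4 : ∀ f : H, (lawK p κ k).real
        {y | Submodule.span ℤ_[p] (Set.range y) = LinearMap.ker f.1}
        = ∫ y, ({y | Submodule.span ℤ_[p] (Set.range y) = LinearMap.ker f.1} :
        Set (κ → Fin k → ℤ_[p])).indicator (fun _ => (1 : ℝ)) y ∂(lawK p κ k) := by
      intro f
      rw [integral_indicator_const _ (hms f)]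
      simp
    rw [Finset.sum_congr rfl (fun f _ => h4 f), ← integral_finsetSum]
    · rw [integral_congr_ae (Filter.Eventually.of_forall hpt),
        integral_indicator_const _ (measurableSet_evC p k G m hG)]
      rw [smul_eq_mul, mul_comm]
    · intro f _
      exact (integrable_const _).indicator (hms f)
  rw [← h3]
  have h5 : ∀ f : H, (lawK p κ k).real
      {y | Submodule.span ℤ_[p] (Set.range y) = LinearMap.ker f.1}
      = ((Nat.card G : ℝ) ^ k)⁻¹ * Q p k := by
    intro f
    have := finite_quot_ker p f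
    rw [lawK_span_eq p k hκ]
    rw [Nat.card_congr (LinearMap.quotKerEquivOfSurjective f.1 f.2).toEquiv]
  rw [Finset.sum_congr rfl (fun f _ => h5 f), Finset.sum_const, nsmul_eq_mul,
    Finset.card_univ, Nat.card_eq_fintype_card (α := H)]

end Pool.MP78
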