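import Pool.Agent.MP78.T15

open MeasureTheory Filter Topology
open scoped ENNReal

noncomputable section

namespace Pool.MP78

variable (p : ℕ) [hp : Fact p.Prime]

lemma card_surj_eq (k : ℕ) (G : Type*) [AddCommGroup G] [Module ℤ_[p] G] :
    Nat.card {f : (Fin k → ℤ_[p]) →ₗ[ℤ_[p]] G // Function.Surjective f}
      = Nat.card {g : Fin k → G // Submodule.span ℤ_[p] (Set.range g) = ⊤} := by
  let e : (Fin k → G) ≃ₗ[ℤ_[p]] ((Fin k → ℤ_[p]) →ₗ[ℤ_[p]] G) :=
    (Pi.basisFun ℤ_[p] (Fin k)).constr ℤ_[p]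
  symm
  refine Nat.card_congr (e.toEquiv.subtypeEquiv fun g => ?_)
  rw [← LinearMap.range_eq_top]
  change _ ↔ LinearMap.range ((Pi.basisFun ℤ_[p] (Fin k)).constr ℤ_[p] g) = ⊤
  rw [Module.Basis.constr_range]

lemma two_mul_card_le (G : Type*) [AddCommGroup G] [Module ℤ_[p] G] [Finite G]
    (H : Submodule ℤ_[p] G) (hH : H ≠ ⊤) : 2 * Nat.card H ≤ Nat.card G := by
  have h1 := Submodule.card_eq_card_quotient_mul_card H
  have h3 : Finite (G ⧸ H) := Finite.of_surjective H.mkQ H.mkQ_surjective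
  have h2 : 1 < Nat.card (G ⧸ H) := by
    rw [Finite.one_lt_card_iff_nontrivial]
    exact Submodule.Quotient.nontrivial_iff.mpr hH
  rw [h1]
  nlinarith [Nat.zero_le (Nat.card H)]

lemma card_bad (k : ℕ) (G : Type*) [AddCommGroup G] [Module ℤ_[p] G] [Finite G] :
    Nat.card {g : Fin k → G // Submodule.span ℤ_[p] (Set.range g) ≠ ⊤} * 2 ^ k
      ≤ Nat.card (Submodule ℤ_[p] G) * Nat.card G ^ k := by
  classical
  have : Fintype G := Fintype.ofFinite G
  have : Fintype (Submodule ℤ_[p] G) := Fintype.ofFinite _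
  rw [Nat.card_eq_fintype_card, Fintype.card_subtype]
  have hsub : (Finset.univ.filter fun g : Fin k → G => Submodule.span ℤ_[p] (Set.range g) ≠ ⊤)
      ⊆ (Finset.univ.filter fun H : Submodule ℤ_[p] G => H ≠ ⊤).biUnion
        (fun H => Fintype.piFinset fun _ : Fin k => Finset.univ.filter (fun x => x ∈ H)) := by
    intro g hg
    simp only [Finset.mem_filter, Finset.mem_univ, true_and] at hg
    simp only [Finset.mem_biUnion, Finset.mem_filter, Finset.mem_univ, true_and,
      Fintype.mem_piFinset]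
    exact ⟨_, hg, fun i => Submodule.subset_span (Set.mem_range_self i)⟩
  have h1 := (Finset.card_le_card hsub).trans Finset.card_biUnion_le
  calc _ ≤ (∑ H ∈ Finset.univ.filter fun H : Submodule ℤ_[p] G => H ≠ ⊤,
        (Fintype.piFinset fun _ : Fin k =>
          (Finset.univ.filter (fun x => x ∈ H) : Finset G)).card) * 2 ^ k :=
        Nat.mul_le_mul_right _ h1
    _ = ∑ H ∈ Finset.univ.filter fun H : Submodule ℤ_[p] G => H ≠ ⊤,
        (2 * Nat.card H) ^ k := by
        rw [Finset.sum_mul]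
        refine Finset.sum_congr rfl fun H _ => ?_
        rw [Fintype.card_piFinset, Finset.prod_const, Finset.card_univ, Fintype.card_fin,
          mul_pow, mul_comm]
        congr 2
        rw [← Fintype.card_subtype, ← Nat.card_eq_fintype_card]
    _ ≤ ∑ H ∈ Finset.univ.filter fun H : Submodule ℤ_[p] G => H ≠ ⊤, Nat.card G ^ k := by
        refine Finset.sum_le_sum fun H hH => ?_
        simp only [Finset.mem_filter, Finset.mem_univ, true_and] at hH
        exact Nat.pow_le_pow_left (two_mul_card_le p G H hH) k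
    _ ≤ Nat.card (Submodule ℤ_[p] G) * Nat.card G ^ k := by
        rw [Finset.sum_const, smul_eq_mul]
        apply Nat.mul_le_mul_right
        rw [Nat.card_eq_fintype_card]
        exact Finset.card_le_univ _

lemma card_split (k : ℕ) (G : Type*) [AddCommGroup G] [Module ℤ_[p] G] [Finite G] :
    Nat.card {g : Fin k → G // Submodule.span ℤ_[p] (Set.range g) = ⊤}
      + Nat.card {g : Fin k → G // Submodule.span ℤ_[p] (Set.range g) ≠ ⊤}
      = Nat.card G ^ k := by
  classical
  have : Fintype G := Fintype.ofFinite G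
  rw [Nat.card_eq_fintype_card, Nat.card_eq_fintype_card, Fintype.card_subtype,
    Fintype.card_subtype, Finset.card_filter_add_card_filter_not]
  simp

lemma tendsto_surj (G : Type*) [AddCommGroup G] [Module ℤ_[p] G] [Finite G] :
    Tendsto (fun k => (Nat.card {f : (Fin k → ℤ_[p]) →ₗ[ℤ_[p]] G // Function.Surjective f} : ℝ)
        * ((Nat.card G : ℝ) ^ k)⁻¹) atTop (𝓝 1) := by
  have hG : (0 : ℝ) < Nat.card G := by exact_mod_cast Nat.card_pos
  set N : ℝ := (Nat.card (Submodule ℤ_[p] G) : ℝ) with hN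
  have hlow : ∀ k, 1 - N * (2⁻¹ : ℝ) ^ k ≤
      (Nat.card {f : (Fin k → ℤ_[p]) →ₗ[ℤ_[p]] G // Function.Surjective f} : ℝ)
        * ((Nat.card G : ℝ) ^ k)⁻¹ := by
    intro k
    rw [card_surj_eq]
    have h1 := card_split p k G
    have h2 := card_bad p k G
    have h1' : (Nat.card {g : Fin k → G // Submodule.span ℤ_[p] (Set.range g) = ⊤} : ℝ)
      + Nat.card {g : Fin k → G // Submodule.span ℤ_[p] (Set.range g) ≠ ⊤}
      = (Nat.card G : ℝ) ^ k := by exact_mod_cast h1
    have h2' : (Nat.card {g : Fin k → G // Submodule.span ℤ_[p] (Set.range g) ≠ ⊤} : ℝ) * 2 ^ k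
      ≤ N * (Nat.card G : ℝ) ^ k := by rw [hN]; exact_mod_cast h2
    have hGk : (0 : ℝ) < (Nat.card G : ℝ) ^ k := by positivity
    rw [← div_eq_mul_inv, le_div_iff₀ hGk]
    have h3 : (Nat.card {g : Fin k → G // Submodule.span ℤ_[p] (Set.range g) ≠ ⊤} : ℝ)
        ≤ N * (2⁻¹ : ℝ) ^ k * (Nat.card G : ℝ) ^ k := by
      have h4 : (0 : ℝ) < 2 ^ k := by positivity
      rw [inv_pow]
      rw [show N * (2 ^ k)⁻¹ * (Nat.card G : ℝ) ^ k = (N * (Nat.card G : ℝ) ^ k) / 2 ^ k by
        field_simp]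
      rw [le_div_iff₀ h4]
      exact h2'
    nlinarith
  have hup : ∀ k, (Nat.card {f : (Fin k → ℤ_[p]) →ₗ[ℤ_[p]] G // Function.Surjective f} : ℝ)
        * ((Nat.card G : ℝ) ^ k)⁻¹ ≤ 1 := by
    intro k
    rw [card_surj_eq]
    have h1 := card_split p k G
    have hGk : (0 : ℝ) < (Nat.card G : ℝ) ^ k := by positivity
    rw [← div_eq_mul_inv, div_le_one hGk]
    exact_mod_cast (by omega : Nat.card {g : Fin k → G // Submodule.span ℤ_[p] (Set.range g) = ⊤}
      ≤ Nat.card G ^ k)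
  have hlim : Tendsto (fun k : ℕ => 1 - N * (2⁻¹ : ℝ) ^ k) atTop (𝓝 1) := by
    have h := (tendsto_pow_atTop_nhds_zero_of_lt_one (r := (2⁻¹ : ℝ)) (by norm_num)
      (by norm_num)).const_mul N
    have h' := h.const_sub 1
    simpa using h'
  exact tendsto_of_tendsto_of_tendsto_of_le_of_le hlim tendsto_const_nhds hlow hup

/-- the exact probability for a `k × k` Haar matrix -/
def rho (k : ℕ) (G : Type*) [AddCommGroup G] [Module ℤ_[p] G] : ℝ :=
  (Nat.card {f : (Fin k → ℤ_[p]) →ₗ[ℤ_[p]] G // Function.Surjective f} : ℝ)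
        * (((Nat.card G : ℝ) ^ k)⁻¹ * Q p k) / (Nat.card (G ≃+ G) : ℝ)

lemma card_aut_pos (G : Type*) [AddCommGroup G] [Finite G] : (0 : ℝ) < Nat.card (G ≃+ G) := by
  have h1 : Finite (G ≃+ G) := Finite.of_injective (fun e => (e : G → G)) DFunLike.coe_injective
  have : 0 < Nat.card (G ≃+ G) := Nat.card_pos
  exact_mod_cast this

lemma tendsto_rho (G : Type*) [AddCommGroup G] [Module ℤ_[p] G] [Finite G] :
    Tendsto (fun k => rho p k G) atTop (𝓝 (cp p / (Nat.card (G ≃+ G) : ℝ))) := by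
  have h1 := (tendsto_surj p G).mul (tendsto_Q p)
  rw [one_mul] at h1
  have h2 := h1.div_const (Nat.card (G ≃+ G) : ℝ)
  refine h2.congr fun k => ?_
  unfold rho
  ring

lemma lawK_evC {κ : Type*} [Fintype κ] (k : ℕ) (hκ : Fintype.card κ = k)
    (G : Type*) [AddCommGroup G]
    [Module ℤ_[p] G] [Finite G] (m : ℕ) (hG : ∀ x : G, (p ^ m) • x = 0) :
    (lawK p κ k).real (evC p κ k G) = rho p k G := by
  have h := fw_formula p k hκ G m hG
  unfold rho
  rw [eq_div_iff (card_aut_pos G).ne', ← h]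
  ring

end Pool.MP78
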