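import Pool.Agent.MP78.T16

open MeasureTheory Filter Topology
open scoped ENNReal

noncomputable section

namespace Pool.MP78

variable (p : ℕ) [hp : Fact p.Prime] {n : ℕ}

/-- surjective linear images of Haar measure -/
lemma map_haarE {k : ℕ} (f : (Fin n → ℤ_[p]) →ₗ[ℤ_[p]] (Fin k → ℤ_[p]))
    (hf : Function.Surjective f) : (haarE p n).map f = haarE p k := by
  have hc : Continuous f := LinearMap.continuous_on_pi f
  have h1 : (Measure.map f (haarE p n)).IsAddHaarMeasure :=
    Measure.isAddHaarMeasure_map_of_isFiniteMeasure (haarE p n) f.toAddMonoidHom hc hf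
  have h2 : IsProbabilityMeasure (Measure.map f (haarE p n)) :=
    Measure.isProbabilityMeasure_map hc.aemeasurable
  exact Measure.isAddHaarMeasure_eq_of_isProbabilityMeasure _ _

lemma map_lawK {κ : Type*} [Fintype κ] {k : ℕ}
    (f : κ → (Fin n → ℤ_[p]) →ₗ[ℤ_[p]] (Fin k → ℤ_[p]))
    (hf : ∀ j, Function.Surjective (f j)) :
    (lawK p κ n).map (fun z j => f j (z j)) = lawK p κ k := by
  have hm : ∀ j, (haarE p n).map (f j) = haarE p k := fun j => map_haarE p (f j) (hf j)
  have hs : ∀ j, SigmaFinite ((haarE p n).map (f j)) := by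
    intro j; rw [hm]; infer_instance
  unfold lawK
  rw [Measure.pi_map_pi (f := fun j => (f j : (Fin n → ℤ_[p]) → (Fin k → ℤ_[p])))
    (fun j => (LinearMap.continuous_on_pi (f j)).aemeasurable)]
  simp only [hm]

/-- the event `cok ≅ G` -/
def evCok (σ : Fin n → Set (Fin n)) (G : Type*) [AddCommGroup G] :
    Set (Fin n → Fin n → ℤ_[p]) :=
  {z | Nonempty (cok p (mat p σ z) ≃+ G)}

lemma evCok_eq (σ : Fin n → Set (Fin n)) (G : Type*) [AddCommGroup G] :
    evCok p σ G = (fun z j => maskR p (σ j) (z j)) ⁻¹' (evC p (Fin n) n G) := by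
  ext z
  unfold evCok evC cok
  rw [Set.mem_ofPred_eq, Set.mem_preimage, Set.mem_ofPred_eq, range_mat]
  rfl

lemma measurableSet_evCok (σ : Fin n → Set (Fin n)) (G : Type*) [AddCommGroup G]
    [Module ℤ_[p] G] [Finite G] (m : ℕ) (hG : ∀ x : G, (p ^ m) • x = 0) :
    MeasurableSet (evCok p σ G) := by
  rw [evCok_eq]
  have h1 : Measurable (fun (z : Fin n → Fin n → ℤ_[p]) j => maskR p (σ j) (z j)) := by
    refine measurable_pi_lambda _ fun j => ?_
    exact (LinearMap.continuous_on_pi (maskR p (σ j))).measurable.comp (measurable_pi_apply j)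
  exact h1 (measurableSet_evC p n G m hG)

/-- glueing of the two parts of the family of columns -/
def glue (A : Finset (Fin n)) :
    (({j // j ∈ A} → Fin n → ℤ_[p]) × ({j // j ∉ A} → Fin n → ℤ_[p])) →
      (Fin n → Fin n → ℤ_[p]) :=
  (MeasurableEquiv.piEquivPiSubtypeProd (fun _ : Fin n => Fin n → ℤ_[p]) (· ∈ A)).symm

lemma glue_mp_aux (A : Finset (Fin n)) (i1 : Fintype {j // j ∈ A}) (i2 : Fintype {j // j ∉ A}) :
    MeasurePreserving (glue p A)
      ((@lawK p _ {j // j ∈ A} i1 n).prod (@lawK p _ {j // j ∉ A} i2 n))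
      (lawZ p n) := by
  obtain rfl : i1 = Subtype.fintype (· ∈ A) := Subsingleton.elim _ _
  obtain rfl : i2 = Subtype.fintype (fun j => ¬ j ∈ A) := Subsingleton.elim _ _
  exact (measurePreserving_piEquivPiSubtypeProd (fun _ : Fin n => haarE p n) (· ∈ A)).symm

lemma glue_mp (A : Finset (Fin n)) :
    MeasurePreserving (glue p A) ((lawK p {j // j ∈ A} n).prod (lawK p {j // j ∉ A} n))
      (lawZ p n) := glue_mp_aux p A _ _

lemma glue_mem (A : Finset (Fin n)) (w) (j : Fin n) (hj : j ∈ A) :
    glue p A w j = w.1 ⟨j, hj⟩ := by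
  simp [glue, MeasurableEquiv.piEquivPiSubtypeProd, Equiv.piEquivPiSubtypeProd, hj]

lemma glue_notMem (A : Finset (Fin n)) (w) (j : Fin n) (hj : j ∉ A) :
    glue p A w j = w.2 ⟨j, hj⟩ := by
  simp [glue, MeasurableEquiv.piEquivPiSubtypeProd, Equiv.piEquivPiSubtypeProd, hj]

lemma col_glue (σ : Fin n → Set (Fin n)) (A : Finset (Fin n)) (w w')
    (h : w.1 = w'.1) (j : Fin n) (hj : j ∈ A) :
    col p σ (glue p A w) j = col p σ (glue p A w') j := by
  unfold col
  rw [glue_mem p A w j hj, glue_mem p A w' j hj, h]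

lemma evG_glue (σ : Fin n → Set (Fin n)) (A : Finset (Fin n)) (w w')
    (h : w.1 = w'.1) : glue p A w ∈ evG p σ A → glue p A w' ∈ evG p σ A := by
  intro hw
  have hcol : Set.EqOn (col p σ (glue p A w)) (col p σ (glue p A w')) (A : Set (Fin n)) :=
    fun j hj => col_glue p σ A w w' h j hj
  have hspn : spn p σ A (glue p A w) = spn p σ A (glue p A w') := by
    unfold spn
    rw [Set.image_congr hcol]
  refine ⟨?_, fun j hj => ?_⟩
  · exact (hw.1 : LinearIndepOn _ _ _).congr hcol
  · have := hw.2 j hj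
    unfold evN lam at this ⊢
    rw [Set.mem_ofPred_eq] at this ⊢
    rw [hspn] at this
    exact this

/-- conditional probability on the good event -/
lemma cond_good (σ : Fin n → Set (Fin n)) (A : Finset (Fin n)) (k : ℕ)
    (hA : A.card + k = n) (G : Type*) [AddCommGroup G]
    [Module ℤ_[p] G] [Finite G] (m : ℕ) (hG : ∀ x : G, (p ^ m) • x = 0) :
    lawZ p n (evG p σ A ∩ evCok p σ G)
      = lawK p {j // j ∉ A} k (evC p {j // j ∉ A} k G) * lawZ p n (evG p σ A) := by
  have hmp := glue_mp p A
  have hmS : MeasurableSet (evG p σ A ∩ evCok p σ G) :=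
    (measurableSet_evG p σ A).inter (measurableSet_evCok p σ G m hG)
  have hmG := measurableSet_evG p σ A
  rw [← hmp.measure_preimage hmS.nullMeasurableSet, ← hmp.measure_preimage hmG.nullMeasurableSet]
  rw [Measure.prod_apply (hmp.measurable hmS), Measure.prod_apply (hmp.measurable hmG)]
  rw [← lintegral_const_mul]
  · refine lintegral_congr fun z1 => ?_
    by_cases hz : glue p A (z1, 0) ∈ evG p σ A
    · have hall : ∀ z2, glue p A (z1, z2) ∈ evG p σ A := fun z2 =>
        evG_glue p σ A (z1, 0) (z1, z2) rfl hz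
      have h1 : Prod.mk z1 ⁻¹' (glue p A ⁻¹' evG p σ A) = Set.univ := by
        ext z2
        simp [hall z2]
      rw [h1, measure_univ, mul_one]
      obtain ⟨π, hπ, hker, hsurj⟩ := exists_proj_good p σ A k hA _ hz
      have h2 : Prod.mk z1 ⁻¹' (glue p A ⁻¹' (evG p σ A ∩ evCok p σ G))
          = (fun z2 (j : {j // j ∉ A}) => (π ∘ₗ maskR p (σ j)) (z2 j)) ⁻¹'
            (evC p {j // j ∉ A} k G) := by
        ext z2
        rw [Set.mem_preimage, Set.mem_preimage, Set.mem_inter_iff, Set.mem_preimage]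
        have hker' : LinearMap.ker π = Submodule.span ℤ_[p]
            (Set.range (fun j : A => colR p σ (glue p A (z1, z2)) j)) := by
          rw [hker]
          congr 2
          funext j
          unfold colR
          rw [glue_mem p A _ j j.2, glue_mem p A _ j j.2]
        obtain ⟨e⟩ := cok_equiv p σ A k (glue p A (z1, z2)) π hπ hker'
        have hfam : (fun j : {j // j ∉ A} => π (maskR p (σ j) (glue p A (z1, z2) j)))
            = (fun j : {j // j ∉ A} => (π ∘ₗ maskR p (σ j)) (z2 j)) := by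
          funext j
          rw [glue_notMem p A _ j j.2]
          rfl
        rw [hfam] at e
        unfold evCok evC
        rw [Set.mem_ofPred_eq, Set.mem_ofPred_eq]
        constructor
        · rintro ⟨_, ⟨f⟩⟩
          exact ⟨e.symm.toAddEquiv.trans f⟩
        · rintro ⟨f⟩
          exact ⟨hall z2, ⟨e.toAddEquiv.trans f⟩⟩
      rw [h2, ← map_lawK p (fun j : {j // j ∉ A} => π ∘ₗ maskR p (σ j))
        (fun j => hsurj j j.2)]
      rw [Measure.map_apply]
      · refine measurable_pi_lambda _ fun j => ?_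
        exact (LinearMap.continuous_on_pi (π ∘ₗ maskR p (σ j))).measurable.comp
          (measurable_pi_apply j)
      · exact measurableSet_evC p k G m hG
    · have hall : ∀ z2, glue p A (z1, z2) ∉ evG p σ A := fun z2 h =>
        hz (evG_glue p σ A (z1, z2) (z1, 0) rfl h)
      have h1 : Prod.mk z1 ⁻¹' (glue p A ⁻¹' evG p σ A) = ∅ := by
        ext z2
        simp [hall z2]
      have h2 : Prod.mk z1 ⁻¹' (glue p A ⁻¹' (evG p σ A ∩ evCok p σ G)) = ∅ := by
        ext z2
        simp [hall z2]
      rw [h1, h2]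
      simp
  · exact measurable_measure_prodMk_left (hmp.measurable hmG)

end Pool.MP78
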