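import Pool.Agent.MP78.T17

open MeasureTheory Filter Topology
open scoped ENNReal

noncomputable section

namespace Pool.MP78

variable (p : ℕ) [hp : Fact p.Prime] {n : ℕ}

/-- the entries of the masked matrix built from the columns `z` -/
def entries (σ : Fin n → Set (Fin n)) (z : Fin n → Fin n → ℤ_[p]) : Fin n × Fin n → ℤ_[p] :=
  fun ij => maskR p (σ ij.2) (z ij.2) ij.1

lemma toMatrix_entries (σ : Fin n → Set (Fin n)) (z : Fin n → Fin n → ℤ_[p]) :
    toMatrix p (entries p σ z) = mat p σ z := rfl

lemma measurable_entries (σ : Fin n → Set (Fin n)) : Measurable (entries p σ) := by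
  refine measurable_pi_lambda _ fun ij => ?_
  unfold entries
  have h1 : Measurable fun z : Fin n → Fin n → ℤ_[p] => maskR p (σ ij.2) (z ij.2) :=
    (LinearMap.continuous_on_pi (maskR p (σ ij.2))).measurable.comp (measurable_pi_apply ij.2)
  exact (measurable_pi_apply ij.1).comp h1

open Classical in
lemma map_entries (σ : Fin n → Set (Fin n)) :
    (lawZ p n).map (entries p σ) = matrixLaw p σ := by
  unfold matrixLaw
  symm
  have hsf : ∀ ij : Fin n × Fin n,
      SigmaFinite (if ij.1 ∈ σ ij.2 then haarZp p else Measure.dirac 0) := by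
    intro ij
    split_ifs <;> infer_instance
  refine Measure.pi_eq fun s hs => ?_
  rw [Measure.map_apply (measurable_entries p σ) (MeasurableSet.univ_pi hs)]
  have h1 : entries p σ ⁻¹' (Set.univ.pi s)
      = Set.univ.pi fun j => Set.univ.pi fun i =>
        {x : ℤ_[p] | (if i ∈ σ j then x else 0) ∈ s (i, j)} := by
    ext z
    simp only [Set.mem_preimage, Set.mem_pi, Set.mem_univ, true_implies, Prod.forall]
    constructor
    · intro h j i; exact h i j
    · intro h i j; exact h j i
  rw [h1]
  unfold lawZ haarE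
  rw [Measure.pi_pi, Fintype.prod_prod_type_right]
  refine Finset.prod_congr rfl fun j _ => ?_
  rw [Measure.pi_pi]
  refine Finset.prod_congr rfl fun i _ => ?_
  by_cases h : i ∈ σ j
  · simp only [if_pos h]
    rfl
  · simp only [if_neg h]
    rw [Measure.dirac_apply' _ (hs (i, j))]
    by_cases h0 : (0 : ℤ_[p]) ∈ s (i, j)
    · simp [h0]
    · simp [h0]

/-- the columns of a family of entries -/
def toCols (x : Fin n × Fin n → ℤ_[p]) : Fin n → Fin n → ℤ_[p] := fun j i => x (i, j)

lemma measurable_toCols : Measurable (toCols p (n := n)) := by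
  refine measurable_pi_lambda _ fun j => measurable_pi_lambda _ fun i => ?_
  exact measurable_pi_apply (i, j)

lemma measurableSet_cok (G : Type) [AddCommGroup G]
    [Module ℤ_[p] G] [Finite G] (m : ℕ) (hG : ∀ x : G, (p ^ m) • x = 0) :
    MeasurableSet {x : Fin n × Fin n → ℤ_[p] | Nonempty (cok p (toMatrix p x) ≃+ G)} := by
  have h : {x : Fin n × Fin n → ℤ_[p] | Nonempty (cok p (toMatrix p x) ≃+ G)}
      = toCols p ⁻¹' (evC p (Fin n) n G) := by
    ext x
    unfold evC cok
    rw [Set.mem_ofPred_eq, Set.mem_preimage, Set.mem_ofPred_eq, Matrix.range_mulVecLin]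
    rfl
  rw [h]
  exact measurable_toCols p (measurableSet_evC p n G m hG)

lemma measurableSet_det :
    MeasurableSet {x : Fin n × Fin n → ℤ_[p] |
      ((toMatrix p x).map (PadicInt.toZMod : ℤ_[p] → ZMod p)).det ≠ 0} := by
  have h : {x : Fin n × Fin n → ℤ_[p] |
      ((toMatrix p x).map (PadicInt.toZMod : ℤ_[p] → ZMod p)).det ≠ 0}
      = toCols p ⁻¹' {z | (Matrix.of fun i j => (red p n (z j)) i).det ≠ 0} := rfl
  rw [h]
  exact measurable_toCols p (measurableSet_red p
    (fun w => (Matrix.of fun i j => (w j) i).det ≠ 0))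

lemma matrixLaw_cok (σ : Fin n → Set (Fin n)) (G : Type) [AddCommGroup G]
    [Module ℤ_[p] G] [Finite G] (m : ℕ) (hG : ∀ x : G, (p ^ m) • x = 0) :
    (matrixLaw p σ).real {x | Nonempty (cok p (toMatrix p x) ≃+ G)}
      = (lawZ p n).real (evCok p σ G) := by
  rw [← map_entries, Measure.real, Measure.map_apply (measurable_entries p σ)
    (measurableSet_cok p G m hG)]
  rfl

lemma matrixLaw_det (σ : Fin n → Set (Fin n)) :
    (matrixLaw p σ).real {x | ((toMatrix p x).map (PadicInt.toZMod : ℤ_[p] → ZMod p)).det ≠ 0}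
      = (lawZ p n).real (evI p σ Finset.univ) := by
  rw [← map_entries, Measure.real, Measure.map_apply (measurable_entries p σ)
    (measurableSet_det p)]
  rw [Measure.real]
  congr 2
  ext z
  rw [mem_evI_univ]
  rfl

/-- total variation bound -/
lemma tv_bound (σ : Fin n → Set (Fin n)) (A : Finset (Fin n)) (k : ℕ)
    (hA : A.card + k = n) (G : Type*) [AddCommGroup G]
    [Module ℤ_[p] G] [Finite G] (m : ℕ) (hG : ∀ x : G, (p ^ m) • x = 0) :
    |(lawZ p n).real (evCok p σ G) - rho p k G| ≤ (lawZ p n).real (evG p σ A)ᶜ := by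
  have hκ : Fintype.card {j // j ∉ A} = k := by
    rw [Fintype.card_subtype_compl, Fintype.card_fin, Fintype.card_coe]
    omega
  have h1 := lawK_evC p (κ := {j // j ∉ A}) k hκ G m hG
  have h2 := cond_good p σ A k hA G m hG
  have h2' : (lawZ p n).real (evG p σ A ∩ evCok p σ G)
      = rho p k G * (lawZ p n).real (evG p σ A) := by
    rw [Measure.real, h2, ENNReal.toReal_mul, ← h1]
    rfl
  have hmG := measurableSet_evG p σ A
  have h3 : (lawZ p n).real (evCok p σ G) = (lawZ p n).real (evG p σ A ∩ evCok p σ G)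
      + (lawZ p n).real (evCok p σ G \ evG p σ A) := by
    rw [Set.inter_comm]
    exact (measureReal_inter_add_sdiff hmG).symm
  have h4 : (lawZ p n).real (evG p σ A)ᶜ = 1 - (lawZ p n).real (evG p σ A) :=
    probReal_compl_eq_one_sub hmG
  have h5 : (lawZ p n).real (evCok p σ G \ evG p σ A) ≤ (lawZ p n).real (evG p σ A)ᶜ :=
    measureReal_mono (fun x hx => hx.2)
  have h6 : 0 ≤ (lawZ p n).real (evCok p σ G \ evG p σ A) := measureReal_nonneg
  have h7 : 0 ≤ rho p k G := by rw [← h1]; exact measureReal_nonneg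
  have h8 : rho p k G ≤ 1 := by rw [← h1]; exact measureReal_le_one
  have h9 : 0 ≤ (lawZ p n).real (evG p σ A) := measureReal_nonneg
  have h10 : (lawZ p n).real (evG p σ A) ≤ 1 := measureReal_le_one
  rw [abs_le]
  constructor
  · rw [h3, h2', h4]
    nlinarith
  · rw [h3, h2']
    rw [h4] at h5 ⊢
    nlinarith

end Pool.MP78
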