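import Pool.Agent.MP78.T18

open MeasureTheory Filter Topology
open scoped ENNReal

noncomputable section

namespace Pool.MP78

variable (p : ℕ) [hp : Fact p.Prime]

lemma limit_of_rankZero (Sig : ∀ n : ℕ, Fin n → Set (Fin n))
    (h : Tendsto (fun n => (lawZ p n).real (evI p (Sig n) Finset.univ)) atTop (𝓝 (cp p)))
    (G : Type*) [AddCommGroup G] [Module ℤ_[p] G] [Finite G] (m : ℕ)
    (hG : ∀ x : G, (p ^ m) • x = 0) :
    Tendsto (fun n => (lawZ p n).real (evCok p (Sig n) G)) atTop
      (𝓝 (cp p / (Nat.card (G ≃+ G) : ℝ))) := by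
  set L := cp p / (Nat.card (G ≃+ G) : ℝ) with hL
  rw [Metric.tendsto_atTop]
  intro ε hε
  have hr := tendsto_rho p G
  have hq : Tendsto (fun k => 1 - cp p / Q p k) atTop (𝓝 0) := by
    have h1 := (tendsto_Q p).inv₀ (cp_ne_zero p)
    have h2 := (h1.const_mul (cp p)).const_sub 1
    rw [mul_inv_cancel₀ (cp_ne_zero p), sub_self] at h2
    exact h2
  have ev1 : ∀ᶠ k in atTop, |rho p k G - L| < ε / 3 := by
    have := (Metric.tendsto_nhds.mp hr) (ε / 3) (by positivity)
    simpa [Real.dist_eq] using this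
  have ev2 : ∀ᶠ k in atTop, 1 - cp p / Q p k < ε / 3 :=
    hq.eventually (gt_mem_nhds (by positivity))
  obtain ⟨k, hk1, hk2, hk3⟩ := (ev1.and (ev2.and (eventually_ge_atTop 1))).exists
  have hb : Tendsto (fun n => (1 - (lawZ p n).real (evI p (Sig n) Finset.univ) / Q p k)
      + k * ((Q p n - (lawZ p n).real (evI p (Sig n) Finset.univ)) / (Q p (k - 1) * dR p k)))
      atTop (𝓝 ((1 - cp p / Q p k) + k * ((cp p - cp p) / (Q p (k - 1) * dR p k)))) :=
    ((h.div_const _).const_sub 1).add ((((tendsto_Q p).sub h).div_const _).const_mul _)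
  rw [sub_self, zero_div, mul_zero, add_zero] at hb
  have ev3 : ∀ᶠ n in atTop, (1 - (lawZ p n).real (evI p (Sig n) Finset.univ) / Q p k)
      + k * ((Q p n - (lawZ p n).real (evI p (Sig n) Finset.univ)) / (Q p (k - 1) * dR p k))
      < ε / 3 := hb.eventually (gt_mem_nhds hk2)
  obtain ⟨N, hN⟩ := (ev3.and (eventually_ge_atTop k)).exists_forall_of_atTop
  refine ⟨N, fun n hn => ?_⟩
  obtain ⟨hn1, hn2⟩ := hN n hn
  obtain ⟨A, -, hA⟩ := Finset.exists_subset_card_eq
    (show n - k ≤ (Finset.univ : Finset (Fin n)).card by simp)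
  have hAk : A.card + k = n := by omega
  have h1 := tv_bound p (Sig n) A k hAk G m hG
  have h2 := bound_G p (Sig n) A k (by omega) (by omega)
  rw [Real.dist_eq]
  calc |(lawZ p n).real (evCok p (Sig n) G) - L|
      ≤ |(lawZ p n).real (evCok p (Sig n) G) - rho p k G| + |rho p k G - L| :=
        abs_sub_le _ _ _
    _ < ε := by linarith

lemma nsmul_card_zero (G : Type*) [AddCommGroup G] [Finite G] (m : ℕ)
    (hm : Nat.card G = p ^ m) (x : G) : (p ^ m) • x = 0 := by
  rw [← hm]; exact card_nsmul_eq_zero'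

/-- a finite abelian `p`-group is a `ℤ_p`-module -/
@[reducible]
def padicModule (G : Type*) [AddCommGroup G] (m : ℕ)
    (hG : ∀ x : G, (p ^ m) • x = 0) : Module ℤ_[p] G :=
  @Module.compHom (ZMod (p ^ m)) ℤ_[p] G _ _
    (AddCommGroup.zmodModule hG) _ (PadicInt.toZModPow m)

lemma isUnit_iff_toZMod (x : ℤ_[p]) : IsUnit x ↔ (PadicInt.toZMod x) ≠ 0 := by
  have h1 : PadicInt.toZMod x = 0 ↔ x ∈ IsLocalRing.maximalIdeal ℤ_[p] := by
    rw [← PadicInt.ker_toZMod, RingHom.mem_ker]
  rw [Ne, h1, IsLocalRing.mem_maximalIdeal, mem_nonunits_iff, not_not]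

lemma cok_trivial_iff {n : ℕ} (X : Matrix (Fin n) (Fin n) ℤ_[p]) :
    Nonempty (cok p X ≃+ Unit) ↔ (X.map (PadicInt.toZMod : ℤ_[p] → ZMod p)).det ≠ 0 := by
  have h0 : (X.map (PadicInt.toZMod : ℤ_[p] → ZMod p)).det = PadicInt.toZMod X.det := by
    rw [RingHom.map_det]
    rfl
  rw [h0, ← isUnit_iff_toZMod, ← Matrix.isUnit_iff_isUnit_det]
  have h1 : Nonempty (cok p X ≃+ Unit) ↔ Function.Surjective X.mulVecLin := by
    rw [← LinearMap.range_eq_top, ← Submodule.Quotient.subsingleton_iff]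
    constructor
    · rintro ⟨e⟩
      exact e.toEquiv.subsingleton
    · intro h
      have : Unique (cok p X) := ⟨⟨0⟩, fun x => Subsingleton.elim _ _⟩
      exact ⟨{ Equiv.ofUnique _ _ with map_add' := fun _ _ => rfl }⟩
  rw [h1]
  exact Matrix.mulVec_surjective_iff_isUnit

/-- **Rank-zero criterion**: for every prime `p` and every sequence of supports, `cok(X_n)`
converges to the Cohen–Lenstra distribution iff `P(det(X_n mod p) ≠ 0) → c_p`. -/
theorem rankZeroCriterion (Sig : ∀ n : ℕ, Fin n → Set (Fin n)) :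
    ConvergesToCL p Sig ↔ ConvergesAtZero p Sig := by
  constructor
  · intro h
    have h1 := h Unit ⟨0, by simp⟩
    unfold ConvergesAtZero
    have h2 : CL p Unit = cp p := by
      simp [CL]
    rw [h2] at h1
    refine h1.congr fun n => ?_
    congr 1
    ext x
    exact cok_trivial_iff p _
  · intro h G _ _ ⟨m, hm⟩
    have hG := nsmul_card_zero p G m hm
    let iM : Module ℤ_[p] G := padicModule p G m hG
    unfold ConvergesAtZero at h
    simp only [matrixLaw_det] at h
    have h1 := limit_of_rankZero p Sig h G m hG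
    have h2 : CL p G = cp p / (Nat.card (G ≃+ G) : ℝ) := by
      unfold CL; ring
    rw [h2]
    refine h1.congr fun n => ?_
    exact (matrixLaw_cok p (Sig n) G m hG).symm

end Pool.MP78
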