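import Pool.Agent.MP78.T1

open MeasureTheory Filter Topology
open scoped ENNReal

noncomputable section

namespace Pool.MP78

variable (p : ℕ) [hp : Fact p.Prime]

lemma dvd_of_norm_le {a x : ℤ_[p]} (ha : a ≠ 0) (h : ‖x‖ ≤ ‖a‖) : a ∣ x := by
  have ha' : (a : ℚ_[p]) ≠ 0 := by
    intro h0; exact ha (Subtype.ext h0)
  have hn : ‖(x : ℚ_[p]) / a‖ ≤ 1 := by
    rw [norm_div]
    exact div_le_one_of_le₀ h (norm_nonneg _)
  refine ⟨⟨(x : ℚ_[p]) / a, hn⟩, ?_⟩
  apply PadicInt.ext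
  change (x : ℚ_[p]) = (a : ℚ_[p]) * ((x : ℚ_[p]) / a)
  field_simp

/-- the kernel of any additive homomorphism from `ℤ_p^n` to a finite group is open -/
lemma isOpen_ker {n : ℕ} {B : Type*} [AddCommGroup B] [Finite B]
    (f : (Fin n → ℤ_[p]) →+ B) : IsOpen (f.ker : Set (Fin n → ℤ_[p])) := by
  apply AddSubgroup.isOpen_of_mem_nhds (g := 0)
  set N : ℕ := Nat.card B with hN
  have hN0 : N ≠ 0 := Nat.card_pos.ne'
  have hN1 : (0 : ℝ) < ‖(N : ℤ_[p])‖ := by
    rw [norm_pos_iff]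
    exact_mod_cast hN0
  rw [Metric.mem_nhds_iff]
  refine ⟨‖(N : ℤ_[p])‖, hN1, ?_⟩
  intro x hx
  rw [mem_ball_zero_iff] at hx
  have hx' : ∀ i, (N : ℤ_[p]) ∣ x i := by
    intro i
    exact dvd_of_norm_le p (by exact_mod_cast hN0) ((norm_le_pi_norm x i).trans hx.le)
  choose y hy using hx'
  have hxy : x = N • y := by
    ext i
    simp [hy i]
  change f x = 0
  rw [hxy, map_nsmul, hN]
  exact card_nsmul_eq_zero'

lemma measurableSet_preimage {n : ℕ} {B : Type*} [AddCommGroup B] [Finite B]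
    (f : (Fin n → ℤ_[p]) →+ B) (T : Set B) : MeasurableSet (f ⁻¹' T) := by
  have h1 : ∀ b, MeasurableSet (f ⁻¹' {b}) := by
    intro b
    by_cases hb : ∃ c, f c = b
    · obtain ⟨c, hc⟩ := hb
      have : f ⁻¹' {b} = (fun x => -c + x) ⁻¹' (f.ker : Set (Fin n → ℤ_[p])) := by
        ext x
        simp only [Set.mem_preimage, Set.mem_singleton_iff, SetLike.mem_coe, AddMonoidHom.mem_ker,
          map_add, map_neg, hc]
        rw [neg_add_eq_zero, eq_comm]
      rw [this]
      exact (measurable_const_add _) (isOpen_ker p f).measurableSet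
    · have : f ⁻¹' {b} = ∅ := by
        ext x
        simp only [Set.mem_preimage, Set.mem_singleton_iff, Set.mem_empty_iff_false, iff_false]
        exact fun h => hb ⟨x, h⟩
      rw [this]; exact MeasurableSet.empty
  have : f ⁻¹' T = ⋃ b ∈ T, f ⁻¹' {b} := by
    ext x; simp
  rw [this]
  exact MeasurableSet.biUnion (Set.to_countable T) (fun b _ => h1 b)

end Pool.MP78
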