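import Pool.Agent.MP78.T2

open MeasureTheory Filter Topology
open scoped ENNReal

noncomputable section

namespace Pool.MP78

variable (p : ℕ) [hp : Fact p.Prime] {n : ℕ}

/-- reduction mod `p` of a vector -/
def red (n : ℕ) : (Fin n → ℤ_[p]) →+ (Fin n → ZMod p) where
  toFun x := fun i => PadicInt.toZMod (x i)
  map_zero' := by ext; simp
  map_add' x y := by ext; simp

lemma red_surjective (n : ℕ) : Function.Surjective (red p n) := by
  intro y
  refine ⟨fun i => ((y i).val : ℤ_[p]), ?_⟩
  ext i
  simp [red]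

open Classical in
/-- erase the entries outside `s` -/
def maskF (s : Set (Fin n)) : (Fin n → ZMod p) →ₗ[ZMod p] (Fin n → ZMod p) where
  toFun x := fun i => if i ∈ s then x i else 0
  map_add' x y := by ext i; by_cases h : i ∈ s <;> simp [h]
  map_smul' c x := by ext i; by_cases h : i ∈ s <;> simp [h]

open Classical in
/-- erase the entries outside `s` -/
def maskR (s : Set (Fin n)) : (Fin n → ℤ_[p]) →ₗ[ℤ_[p]] (Fin n → ℤ_[p]) where
  toFun x := fun i => if i ∈ s then x i else 0
  map_add' x y := by ext i; by_cases h : i ∈ s <;> simp [h]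
  map_smul' c x := by ext i; by_cases h : i ∈ s <;> simp [h]

lemma red_maskR (s : Set (Fin n)) (x : Fin n → ℤ_[p]) :
    red p n (maskR p s x) = maskF p s (red p n x) := by
  ext i
  by_cases h : i ∈ s <;> simp [red, maskR, maskF, h]

/-- the reduced columns -/
def col (σ : Fin n → Set (Fin n)) (z : Fin n → Fin n → ℤ_[p]) (j : Fin n) : Fin n → ZMod p :=
  maskF p (σ j) (red p n (z j))

/-- law of the family of columns -/
def lawZ (n : ℕ) : Measure (Fin n → Fin n → ℤ_[p]) := Measure.pi fun _ => haarE p n

instance (n : ℕ) : IsProbabilityMeasure (lawZ p n) := by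
  unfold lawZ; infer_instance

lemma measurableSet_red (P : (Fin n → Fin n → ZMod p) → Prop) :
    MeasurableSet {z : Fin n → Fin n → ℤ_[p] | P (fun j => red p n (z j))} := by
  have h : {z : Fin n → Fin n → ℤ_[p] | P (fun j => red p n (z j))}
      = ⋃ w ∈ {w | P w}, ⋂ j, {z : Fin n → Fin n → ℤ_[p] | red p n (z j) = w j} := by
    ext z
    simp only [Set.mem_ofPred_eq, Set.mem_iUnion, Set.mem_iInter, exists_prop]
    constructor
    · intro hz
      exact ⟨_, hz, fun j => rfl⟩
    · rintro ⟨w, hw, hj⟩
      have : (fun j => red p n (z j)) = w := funext hj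
      rw [this]; exact hw
  rw [h]
  refine MeasurableSet.biUnion (Set.to_countable _) (fun w _ => MeasurableSet.iInter fun j => ?_)
  have h1 : MeasurableSet ((red p n) ⁻¹' {w j}) := measurableSet_preimage p (red p n) _
  have h2 : Measurable (fun z : Fin n → Fin n → ℤ_[p] => z j) := measurable_pi_apply j
  exact h2 h1

/-- the event that the reduced columns in `A` are independent -/
def evI (σ : Fin n → Set (Fin n)) (A : Finset (Fin n)) : Set (Fin n → Fin n → ℤ_[p]) :=
  {z | LinearIndepOn (ZMod p) (col p σ z) (A : Set (Fin n))}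

/-- span of the reduced columns in `A` -/
def spn (σ : Fin n → Set (Fin n)) (A : Finset (Fin n)) (z : Fin n → Fin n → ℤ_[p]) :
    Submodule (ZMod p) (Fin n → ZMod p) :=
  Submodule.span (ZMod p) (col p σ z '' (A : Set (Fin n)))

/-- projection of column space `j` to the quotient by the span of the columns in `A` -/
def lam (σ : Fin n → Set (Fin n)) (A : Finset (Fin n)) (j : Fin n)
    (z : Fin n → Fin n → ℤ_[p]) :
    (Fin n → ZMod p) →ₗ[ZMod p] ((Fin n → ZMod p) ⧸ spn p σ A z) :=
  (spn p σ A z).mkQ ∘ₗ maskF p (σ j)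

/-- the event that column space `j` does not generate modulo the columns in `A` -/
def evN (σ : Fin n → Set (Fin n)) (A : Finset (Fin n)) (j : Fin n) :
    Set (Fin n → Fin n → ℤ_[p]) :=
  {z | ¬ Function.Surjective (lam p σ A j z)}

lemma measurableSet_evI (σ : Fin n → Set (Fin n)) (A : Finset (Fin n)) :
    MeasurableSet (evI p σ A) :=
  measurableSet_red p (fun w => LinearIndepOn (ZMod p) (fun j => maskF p (σ j) (w j))
    (A : Set (Fin n)))

lemma measurableSet_evN (σ : Fin n → Set (Fin n)) (A : Finset (Fin n)) (j : Fin n) :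
    MeasurableSet (evN p σ A j) :=
  measurableSet_red p (fun w => ¬ Function.Surjective
    ((Submodule.span (ZMod p) ((fun j => maskF p (σ j) (w j)) '' (A : Set (Fin n)))).mkQ ∘ₗ
      maskF p (σ j)))

lemma col_update_of_ne (σ : Fin n → Set (Fin n)) (z : Fin n → Fin n → ℤ_[p]) {j i : Fin n}
    (x : Fin n → ℤ_[p]) (h : i ≠ j) :
    col p σ (Function.update z j x) i = col p σ z i := by
  simp [col, Function.update_of_ne h]

lemma col_update_same (σ : Fin n → Set (Fin n)) (z : Fin n → Fin n → ℤ_[p]) (j : Fin n)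
    (x : Fin n → ℤ_[p]) :
    col p σ (Function.update z j x) j = maskF p (σ j) (red p n x) := by
  simp [col]

lemma spn_update (σ : Fin n → Set (Fin n)) (A : Finset (Fin n)) (z : Fin n → Fin n → ℤ_[p])
    {j : Fin n} (hj : j ∉ A) (x : Fin n → ℤ_[p]) :
    spn p σ A (Function.update z j x) = spn p σ A z := by
  unfold spn
  congr 1
  apply Set.image_congr
  intro i hi
  apply col_update_of_ne
  rintro rfl
  exact hj hi

lemma evI_update (σ : Fin n → Set (Fin n)) (A : Finset (Fin n)) (z : Fin n → Fin n → ℤ_[p])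
    {j : Fin n} (hj : j ∉ A) (x : Fin n → ℤ_[p]) :
    Function.update z j x ∈ evI p σ A ↔ z ∈ evI p σ A := by
  have h : Set.EqOn (col p σ (Function.update z j x)) (col p σ z) (A : Set (Fin n)) := by
    intro i hi
    apply col_update_of_ne
    rintro rfl
    exact hj hi
  exact ⟨fun H => H.congr h, fun H => H.congr h.symm⟩

lemma evN_update (σ : Fin n → Set (Fin n)) (A : Finset (Fin n)) (z : Fin n → Fin n → ℤ_[p])
    {j : Fin n} (hj : j ∉ A) (x : Fin n → ℤ_[p]) :
    Function.update z j x ∈ evN p σ A j ↔ z ∈ evN p σ A j := by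
  unfold evN lam
  simp only [Set.mem_ofPred_eq]
  rw [spn_update p σ A z hj x]

lemma evI_insert_update (σ : Fin n → Set (Fin n)) (A : Finset (Fin n))
    (z : Fin n → Fin n → ℤ_[p]) {j : Fin n} (hj : j ∉ A) (x : Fin n → ℤ_[p]) :
    Function.update z j x ∈ evI p σ (insert j A) ↔
      z ∈ evI p σ A ∧ maskF p (σ j) (red p n x) ∉ spn p σ A z := by
  unfold evI
  simp only [Set.mem_ofPred_eq, Finset.coe_insert]
  rw [linearIndepOn_insert (by simpa using hj)]
  rw [col_update_same]
  have h1 := evI_update p σ A z hj x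
  have h2 := spn_update p σ A z hj x
  unfold evI at h1
  unfold spn at h2
  simp only [Set.mem_ofPred_eq] at h1
  rw [h1, h2]
  rfl

end Pool.MP78
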