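import Pool.Agent.MP78.T3

open MeasureTheory Filter Topology
open scoped ENNReal

noncomputable section

namespace Pool.MP78

variable (p : ℕ) [hp : Fact p.Prime] {n : ℕ}

lemma natCard_submodule {V : Type*} [AddCommGroup V] [Module (ZMod p) V] [Finite V]
    (W : Submodule (ZMod p) V) : Nat.card W = p ^ Module.finrank (ZMod p) W := by
  rw [Module.natCard_eq_pow_finrank (K := ZMod p), Nat.card_zmod]

/-- Haar measure of the set of vectors mapped to zero -/
lemma haarE_ker {V : Type*} [AddCommGroup V] [Module (ZMod p) V] [Finite V]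
    (Λ : (Fin n → ZMod p) →ₗ[ZMod p] V) :
    haarE p n {x | Λ (red p n x) = 0}
      = ((p : ℝ≥0∞) ^ Module.finrank (ZMod p) (LinearMap.range Λ))⁻¹ := by
  set f : (Fin n → ℤ_[p]) →+ LinearMap.range Λ :=
    (Λ.rangeRestrict.toAddMonoidHom).comp (red p n) with hf
  have hsurj : Function.Surjective f := by
    intro y
    obtain ⟨v, hv⟩ := LinearMap.surjective_rangeRestrict Λ y
    obtain ⟨x, hx⟩ := red_surjective p n v
    exact ⟨x, by simp [hf, hx, hv]⟩
  have h := measure_preimage_singleton (haarE p n) f hsurj (measurableSet_preimage p f _) 0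
  have h2 : f ⁻¹' {0} = {x | Λ (red p n x) = 0} := by
    ext x
    simp only [Set.mem_preimage, Set.mem_singleton_iff, Set.mem_ofPred_eq]
    constructor
    · intro hx
      exact congrArg Subtype.val hx
    · intro hx
      exact Subtype.ext hx
  rw [← h2, h, natCard_submodule p]
  push_cast
  rfl

lemma finrank_spn (σ : Fin n → Set (Fin n)) (A : Finset (Fin n))
    (z : Fin n → Fin n → ℤ_[p]) (hz : z ∈ evI p σ A) :
    Module.finrank (ZMod p) (spn p σ A z) = A.card := by
  unfold spn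
  have hz' : LinearIndepOn (ZMod p) (col p σ z) (A : Set (Fin n)) := hz
  have h1 : LinearIndependent (ZMod p) (fun j : (A : Set (Fin n)) => col p σ z j) := hz'
  have h2 := finrank_span_eq_card h1
  rw [Set.image_eq_range]
  simpa using h2

lemma finrank_quot_spn (σ : Fin n → Set (Fin n)) (A : Finset (Fin n))
    (z : Fin n → Fin n → ℤ_[p]) (hz : z ∈ evI p σ A) :
    Module.finrank (ZMod p) ((Fin n → ZMod p) ⧸ spn p σ A z) = n - A.card := by
  rw [Submodule.finrank_quotient, finrank_spn p σ A z hz]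
  simp

/-- probability that a new column is in the span -/
lemma haarE_mem_spn (σ : Fin n → Set (Fin n)) (A : Finset (Fin n)) (j : Fin n)
    (z : Fin n → Fin n → ℤ_[p]) :
    haarE p n {x | maskF p (σ j) (red p n x) ∈ spn p σ A z}
      = ((p : ℝ≥0∞) ^ Module.finrank (ZMod p) (LinearMap.range (lam p σ A j z)))⁻¹ := by
  rw [← haarE_ker]
  congr 1
  ext x
  simp [lam]

lemma pow_inv_antitone {a b : ℕ} (h : a ≤ b) : ((p : ℝ≥0∞) ^ b)⁻¹ ≤ ((p : ℝ≥0∞) ^ a)⁻¹ := by
  apply ENNReal.inv_le_inv.mpr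
  apply pow_le_pow_right₀ _ h
  exact_mod_cast hp.out.one_lt.le

lemma key_pointwise (σ : Fin n → Set (Fin n)) (A : Finset (Fin n)) (j : Fin n)
    (z : Fin n → Fin n → ℤ_[p]) (hz : z ∈ evI p σ A) :
    ((p : ℝ≥0∞) ^ (n - A.card))⁻¹ ≤ haarE p n {x | maskF p (σ j) (red p n x) ∈ spn p σ A z} := by
  rw [haarE_mem_spn]
  apply pow_inv_antitone
  rw [← finrank_quot_spn p σ A z hz]
  exact Submodule.finrank_le _

lemma key_pointwise' (σ : Fin n → Set (Fin n)) (A : Finset (Fin n)) (j : Fin n)
    (z : Fin n → Fin n → ℤ_[p]) (hz : z ∈ evI p σ A) (hN : z ∈ evN p σ A j) :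
    ((p : ℝ≥0∞) ^ (n - A.card - 1))⁻¹
      ≤ haarE p n {x | maskF p (σ j) (red p n x) ∈ spn p σ A z} := by
  rw [haarE_mem_spn]
  apply pow_inv_antitone
  rw [← finrank_quot_spn p σ A z hz]
  have : Module.finrank (ZMod p) (LinearMap.range (lam p σ A j z))
      < Module.finrank (ZMod p) ((Fin n → ZMod p) ⧸ spn p σ A z) := by
    apply Submodule.finrank_lt
    intro h
    exact hN (LinearMap.range_eq_top.mp h)
  omega

end Pool.MP78
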