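import Pool.Agent.MP78.T4

open MeasureTheory Filter Topology
open scoped ENNReal

noncomputable section

namespace Pool.MP78

variable (p : ℕ) [hp : Fact p.Prime] {n : ℕ}

/-- the gap constant `p^{-(m-1)} - p^{-m}` -/
def dgap (m : ℕ) : ℝ≥0∞ := ((p : ℝ≥0∞) ^ (m - 1))⁻¹ - ((p : ℝ≥0∞) ^ m)⁻¹

lemma dgap_add (m : ℕ) : dgap p m + ((p : ℝ≥0∞) ^ m)⁻¹ = ((p : ℝ≥0∞) ^ (m - 1))⁻¹ := by
  unfold dgap
  exact tsub_add_cancel_of_le (pow_inv_antitone p (Nat.sub_le m 1))

lemma haarE_compl (σ : Fin n → Set (Fin n)) (A : Finset (Fin n)) (j : Fin n)
    (z : Fin n → Fin n → ℤ_[p]) :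
    haarE p n {x | maskF p (σ j) (red p n x) ∉ spn p σ A z}
      + haarE p n {x | maskF p (σ j) (red p n x) ∈ spn p σ A z} = 1 := by
  have hm : MeasurableSet {x | maskF p (σ j) (red p n x) ∈ spn p σ A z} :=
    measurableSet_preimage p (red p n) {y | maskF p (σ j) y ∈ spn p σ A z}
  have := measure_add_measure_compl (μ := haarE p n) hm
  rw [measure_univ, add_comm] at this
  exact this

open Classical in
lemma key_integral (σ : Fin n → Set (Fin n)) (A : Finset (Fin n)) (j : Fin n) (hj : j ∉ A) :
    lawZ p n (evI p σ (insert j A)) + dgap p (n - A.card) * lawZ p n (evI p σ A ∩ evN p σ A j)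
      + ((p : ℝ≥0∞) ^ (n - A.card))⁻¹ * lawZ p n (evI p σ A) ≤ lawZ p n (evI p σ A) := by
  set d := dgap p (n - A.card) with hd
  set c := ((p : ℝ≥0∞) ^ (n - A.card))⁻¹ with hc
  have mI := measurableSet_evI p σ A
  have mI' := measurableSet_evI p σ (insert j A)
  have mN := (measurableSet_evI p σ A).inter (measurableSet_evN p σ A j)
  set f : (Fin n → Fin n → ℤ_[p]) → ℝ≥0∞ := fun z =>
    (evI p σ (insert j A)).indicator 1 z + d * (evI p σ A ∩ evN p σ A j).indicator 1 z
      + c * (evI p σ A).indicator 1 z with hf
  set g : (Fin n → Fin n → ℤ_[p]) → ℝ≥0∞ := (evI p σ A).indicator 1 with hg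
  have mf : Measurable f :=
    (((measurable_one.indicator mI').add ((measurable_one.indicator mN).const_mul d))).add
      ((measurable_one.indicator mI).const_mul c)
  have mg : Measurable g := measurable_one.indicator mI
  have hfi : ∫⁻ z, f z ∂(lawZ p n) = lawZ p n (evI p σ (insert j A))
      + d * lawZ p n (evI p σ A ∩ evN p σ A j) + c * lawZ p n (evI p σ A) := by
    rw [hf]
    rw [lintegral_add_right, lintegral_add_right, lintegral_const_mul, lintegral_const_mul,
      lintegral_indicator_one mI, lintegral_indicator_one mI', lintegral_indicator_one mN]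
    · exact measurable_one.indicator mI
    · exact measurable_one.indicator mN
    · exact ((measurable_one.indicator mN).const_mul d)
    · exact ((measurable_one.indicator mI).const_mul c)
  have hgi : ∫⁻ z, g z ∂(lawZ p n) = lawZ p n (evI p σ A) := by
    rw [hg, lintegral_indicator_one mI]
  rw [← hfi, ← hgi]
  apply lintegral_le_of_lmarginal_le {j} mf mg
  intro z
  rw [lmarginal_singleton, lmarginal_singleton]
  by_cases hz : z ∈ evI p σ A
  · have hgz : ∀ x, g (Function.update z j x) = 1 := by
      intro x
      rw [hg, Set.indicator_of_mem ((evI_update p σ A z hj x).mpr hz)]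
      rfl
    have hfz : ∀ x, f (Function.update z j x) =
        ({x | maskF p (σ j) (red p n x) ∉ spn p σ A z} : Set _).indicator 1 x
          + (d * (if z ∈ evN p σ A j then 1 else 0) + c) := by
      intro x
      rw [hf]
      simp only
      rw [add_assoc]
      congr 1
      · by_cases hx : maskF p (σ j) (red p n x) ∈ spn p σ A z
        · rw [Set.indicator_of_notMem, Set.indicator_of_notMem]
          · simpa using hx
          · rw [evI_insert_update p σ A z hj x]
            exact fun h => h.2 hx
        · rw [Set.indicator_of_mem, Set.indicator_of_mem]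
          · rfl
          · simpa using hx
          · rw [evI_insert_update p σ A z hj x]
            exact ⟨hz, hx⟩
      · congr 1
        · congr 1
          by_cases hN : z ∈ evN p σ A j
          · rw [Set.indicator_of_mem, if_pos hN]
            · rfl
            · exact ⟨(evI_update p σ A z hj x).mpr hz, (evN_update p σ A z hj x).mpr hN⟩
          · rw [Set.indicator_of_notMem, if_neg hN]
            exact fun h => hN ((evN_update p σ A z hj x).mp h.2)
        · rw [hgz x, mul_one]
    simp only [hgz, hfz]
    have hmx : MeasurableSet {x | maskF p (σ j) (red p n x) ∉ spn p σ A z} :=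
      measurableSet_preimage p (red p n) {y | maskF p (σ j) y ∉ spn p σ A z}
    rw [lintegral_add_right _ measurable_const, lintegral_indicator_one hmx, lintegral_const,
      lintegral_const, measure_univ, mul_one, mul_one]
    refine le_trans ?_ (haarE_compl p σ A j z).le
    gcongr
    by_cases hN : z ∈ evN p σ A j
    · rw [if_pos hN, mul_one, hd, hc, dgap_add]
      exact key_pointwise' p σ A j z hz hN
    · rw [if_neg hN, mul_zero, zero_add]
      exact key_pointwise p σ A j z hz
  · have hgz : ∀ x, g (Function.update z j x) = 0 := by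
      intro x
      rw [hg, Set.indicator_of_notMem]
      rw [evI_update p σ A z hj x]; exact hz
    have hfz : ∀ x, f (Function.update z j x) = 0 := by
      intro x
      rw [hf]
      simp only
      rw [Set.indicator_of_notMem, Set.indicator_of_notMem, hgz x]
      · simp
      · rw [Set.mem_inter_iff, evI_update p σ A z hj x]
        exact fun h => hz h.1
      · rw [evI_insert_update p σ A z hj x]
        exact fun h => hz h.1
    simp only [hgz, hfz]
    simp

end Pool.MP78
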