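import Pool.Agent.MP78.T5

open MeasureTheory Filter Topology
open scoped ENNReal

noncomputable section

namespace Pool.MP78

variable (p : ℕ) [hp : Fact p.Prime] {n : ℕ}

/-- `∏_{i=1}^m (1-p^{-i})` -/
def Q (m : ℕ) : ℝ := ∏ i ∈ Finset.range m, (1 - ((p : ℝ) ^ (i + 1))⁻¹)

lemma Q_zero : Q p 0 = 1 := by simp [Q]

lemma Q_succ (m : ℕ) : Q p (m + 1) = Q p m * (1 - ((p : ℝ) ^ (m + 1))⁻¹) := by
  simp [Q, Finset.prod_range_succ]

lemma one_lt_p : (1 : ℝ) < p := by exact_mod_cast hp.out.one_lt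

lemma factor_pos (m : ℕ) : 0 < 1 - ((p : ℝ) ^ (m + 1))⁻¹ := by
  have h1 := one_lt_p p
  have : (1 : ℝ) < (p : ℝ) ^ (m + 1) := one_lt_pow₀ h1 (by omega)
  have := inv_lt_one_of_one_lt₀ this
  linarith

lemma factor_le (m : ℕ) : 1 - ((p : ℝ) ^ (m + 1))⁻¹ ≤ 1 := by
  have h1 := one_lt_p p
  have : (0 : ℝ) ≤ ((p : ℝ) ^ (m + 1))⁻¹ := by positivity
  linarith

lemma Q_pos (m : ℕ) : 0 < Q p m := Finset.prod_pos fun i _ => factor_pos p i

lemma Q_le_one (m : ℕ) : Q p m ≤ 1 :=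
  Finset.prod_le_one (fun i _ => (factor_pos p i).le) (fun i _ => factor_le p i)

/-- real gap constant -/
def dR (m : ℕ) : ℝ := ((p : ℝ) ^ (m - 1))⁻¹ - ((p : ℝ) ^ m)⁻¹

lemma dR_nonneg (m : ℕ) : 0 ≤ dR p m := by
  unfold dR
  have h1 := one_lt_p p
  have : ((p : ℝ) ^ m)⁻¹ ≤ ((p : ℝ) ^ (m - 1))⁻¹ := by
    apply inv_anti₀ (by positivity)
    exact pow_le_pow_right₀ h1.le (Nat.sub_le m 1)
  linarith

lemma dR_pos (m : ℕ) (hm : 0 < m) : 0 < dR p m := by
  unfold dR
  have h1 := one_lt_p p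
  have : ((p : ℝ) ^ m)⁻¹ < ((p : ℝ) ^ (m - 1))⁻¹ := by
    apply inv_strictAnti₀ (by positivity)
    exact pow_lt_pow_right₀ h1 (by omega)
  linarith

lemma dgap_toReal (m : ℕ) : (dgap p m).toReal = dR p m := by
  unfold dgap dR
  rw [ENNReal.toReal_sub_of_le (pow_inv_antitone p (Nat.sub_le m 1))]
  · simp
  · simp [hp.out.ne_zero]

lemma key_real (σ : Fin n → Set (Fin n)) (A : Finset (Fin n)) (j : Fin n) (hj : j ∉ A) :
    (lawZ p n).real (evI p σ (insert j A))
      + dR p (n - A.card) * (lawZ p n).real (evI p σ A ∩ evN p σ A j)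
      ≤ (lawZ p n).real (evI p σ A) * (1 - ((p : ℝ) ^ (n - A.card))⁻¹) := by
  have h := key_integral p σ A j hj
  have h2 := ENNReal.toReal_mono (measure_ne_top _ _) h
  have hd : dgap p (n - A.card) ≠ ⊤ := by
    unfold dgap
    refine ne_top_of_le_ne_top ?_ tsub_le_self
    simp [hp.out.ne_zero]
  have hc : ((p : ℝ≥0∞) ^ (n - A.card))⁻¹ ≠ ⊤ := by
    simp [hp.out.ne_zero]
  rw [ENNReal.toReal_add, ENNReal.toReal_add, ENNReal.toReal_mul, ENNReal.toReal_mul,
    dgap_toReal] at h2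
  · simp only [ENNReal.toReal_inv, ENNReal.toReal_pow, ENNReal.toReal_natCast] at h2
    simp only [Measure.real]
    linarith
  · exact measure_ne_top _ _
  · exact ENNReal.mul_ne_top hd (measure_ne_top _ _)
  · exact ENNReal.add_ne_top.mpr ⟨measure_ne_top _ _, ENNReal.mul_ne_top hd (measure_ne_top _ _)⟩
  · exact ENNReal.mul_ne_top hc (measure_ne_top _ _)

/-- the potential -/
def Phi (σ : Fin n → Set (Fin n)) (A : Finset (Fin n)) : ℝ :=
  (lawZ p n).real (evI p σ A) * Q p (n - A.card)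

lemma Phi_insert (σ : Fin n → Set (Fin n)) (A : Finset (Fin n)) (j : Fin n) (hj : j ∉ A) :
    Phi p σ (insert j A) + Q p (n - A.card - 1) * dR p (n - A.card)
      * (lawZ p n).real (evI p σ A ∩ evN p σ A j) ≤ Phi p σ A := by
  have hcard : A.card < n := by
    have h1 : (insert j A).card ≤ n := by
      simpa using Finset.card_le_univ (insert j A)
    rw [Finset.card_insert_of_notMem hj] at h1
    omega
  unfold Phi
  rw [Finset.card_insert_of_notMem hj]
  obtain ⟨m, hm⟩ : ∃ m, n - A.card = m + 1 := ⟨n - A.card - 1, by omega⟩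
  have hm2 : n - (A.card + 1) = m := by omega
  have hk := key_real p σ A j hj
  rw [hm] at hk ⊢
  rw [hm2, Nat.add_sub_cancel, Q_succ]
  have hQ := Q_pos p m
  nlinarith [mul_le_mul_of_nonneg_left hk hQ.le]

lemma Phi_insert_le (σ : Fin n → Set (Fin n)) (A : Finset (Fin n)) (j : Fin n) (hj : j ∉ A) :
    Phi p σ (insert j A) ≤ Phi p σ A := by
  have h1 := Phi_insert p σ A j hj
  have h2 : 0 ≤ Q p (n - A.card - 1) * dR p (n - A.card)
      * (lawZ p n).real (evI p σ A ∩ evN p σ A j) :=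
    mul_nonneg (mul_nonneg (Q_pos p _).le (dR_nonneg p _)) measureReal_nonneg
  linarith

lemma Phi_union_le (σ : Fin n → Set (Fin n)) (A C : Finset (Fin n)) :
    Phi p σ (A ∪ C) ≤ Phi p σ A := by
  induction C using Finset.induction_on with
  | empty => simp
  | insert j C hj ih =>
    rw [Finset.union_insert]
    by_cases h : j ∈ A ∪ C
    · rw [Finset.insert_eq_of_mem h]; exact ih
    · exact (Phi_insert_le p σ (A ∪ C) j h).trans ih

lemma Phi_anti (σ : Fin n → Set (Fin n)) {A B : Finset (Fin n)} (h : A ⊆ B) :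
    Phi p σ B ≤ Phi p σ A := by
  have := Phi_union_le p σ A B
  rwa [Finset.union_eq_right.mpr h] at this

lemma Phi_empty (σ : Fin n → Set (Fin n)) : Phi p σ ∅ = Q p n := by
  have h : evI p σ ∅ = Set.univ := by
    ext z
    simp [evI]
  simp [Phi, h]

lemma Phi_univ (σ : Fin n → Set (Fin n)) :
    Phi p σ Finset.univ = (lawZ p n).real (evI p σ Finset.univ) := by
  simp [Phi, Q_zero]

/-- probability of a missing direction -/
lemma bound_N (σ : Fin n → Set (Fin n)) (A : Finset (Fin n)) (k : ℕ) (hk : 0 < k)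
    (hA : n - A.card = k) (j : Fin n) (hj : j ∉ A) :
    (lawZ p n).real (evI p σ A ∩ evN p σ A j)
      ≤ (Q p n - (lawZ p n).real (evI p σ Finset.univ)) / (Q p (k - 1) * dR p k) := by
  have h1 := Phi_insert p σ A j hj
  have h2 := Phi_anti p σ (Finset.empty_subset A)
  have h3 := Phi_anti p σ (Finset.subset_univ (insert j A))
  rw [Phi_empty] at h2
  rw [Phi_univ] at h3
  rw [hA] at h1
  rw [le_div_iff₀ (mul_pos (Q_pos p _) (dR_pos p k hk))]
  nlinarith

lemma bound_I (σ : Fin n → Set (Fin n)) (A : Finset (Fin n)) (k : ℕ)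
    (hA : n - A.card = k) :
    (lawZ p n).real (evI p σ Finset.univ) / Q p k ≤ (lawZ p n).real (evI p σ A) := by
  have h3 := Phi_anti p σ (Finset.subset_univ A)
  rw [Phi_univ] at h3
  rw [div_le_iff₀ (Q_pos p k)]
  unfold Phi at h3
  rw [hA] at h3
  exact h3

/-- the good event -/
def evG (σ : Fin n → Set (Fin n)) (A : Finset (Fin n)) : Set (Fin n → Fin n → ℤ_[p]) :=
  {z | z ∈ evI p σ A ∧ ∀ j ∉ A, z ∉ evN p σ A j}

lemma measurableSet_evG (σ : Fin n → Set (Fin n)) (A : Finset (Fin n)) :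
    MeasurableSet (evG p σ A) := by
  have : evG p σ A = evI p σ A ∩ ⋂ j, ⋂ (_ : j ∉ A), (evN p σ A j)ᶜ := by
    ext z
    simp [evG]
  rw [this]
  exact (measurableSet_evI p σ A).inter (MeasurableSet.iInter fun j =>
    MeasurableSet.iInter fun _ => (measurableSet_evN p σ A j).compl)

lemma bound_G (σ : Fin n → Set (Fin n)) (A : Finset (Fin n)) (k : ℕ) (hk : 0 < k)
    (hA : n - A.card = k) :
    (lawZ p n).real (evG p σ A)ᶜ ≤
      (1 - (lawZ p n).real (evI p σ Finset.univ) / Q p k)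
      + k * ((Q p n - (lawZ p n).real (evI p σ Finset.univ)) / (Q p (k - 1) * dR p k)) := by
  have hsub : (evG p σ A)ᶜ ⊆ (evI p σ A)ᶜ ∪ ⋃ j ∈ Aᶜ, (evI p σ A ∩ evN p σ A j) := by
    intro z hz
    by_cases h : z ∈ evI p σ A
    · right
      have : ¬ ∀ j ∉ A, z ∉ evN p σ A j := fun H => hz ⟨h, H⟩
      push Not at this
      obtain ⟨j, hj, hjN⟩ := this
      simp only [Set.mem_iUnion]
      exact ⟨j, by simpa using hj, h, hjN⟩
    · left; exact h
  have h1 : (lawZ p n).real (evG p σ A)ᶜ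
      ≤ (lawZ p n).real (evI p σ A)ᶜ
        + ∑ j ∈ Aᶜ, (lawZ p n).real (evI p σ A ∩ evN p σ A j) := by
    refine (measureReal_mono hsub).trans ?_
    refine (measureReal_union_le _ _).trans ?_
    gcongr
    exact measureReal_biUnion_finset_le _ _
  have h2 : (lawZ p n).real (evI p σ A)ᶜ = 1 - (lawZ p n).real (evI p σ A) :=
    probReal_compl_eq_one_sub (measurableSet_evI p σ A)
  have h3 := bound_I p σ A k hA
  have h4 : ∑ j ∈ Aᶜ, (lawZ p n).real (evI p σ A ∩ evN p σ A j) ≤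
      k * ((Q p n - (lawZ p n).real (evI p σ Finset.univ)) / (Q p (k - 1) * dR p k)) := by
    have : ∀ j ∈ Aᶜ, (lawZ p n).real (evI p σ A ∩ evN p σ A j) ≤
      (Q p n - (lawZ p n).real (evI p σ Finset.univ)) / (Q p (k - 1) * dR p k) := fun j hj =>
      bound_N p σ A k hk hA j (by simpa using hj)
    refine (Finset.sum_le_card_nsmul _ _ _ this).trans ?_
    rw [Finset.card_compl, Fintype.card_fin, hA, nsmul_eq_mul]
  linarith

end Pool.MP78
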