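import Pool.Agent.MP78.T6

open MeasureTheory Filter Topology
open scoped ENNReal

noncomputable section

namespace Pool.MP78

variable (p : ℕ) [hp : Fact p.Prime] {n : ℕ}

lemma summable_inv_pow : Summable fun i : ℕ => -((p : ℝ) ^ (i + 1))⁻¹ := by
  have h1 := one_lt_p p
  have h2 : Summable fun i : ℕ => ((p : ℝ)⁻¹) ^ i :=
    summable_geometric_of_lt_one (by positivity) (inv_lt_one_of_one_lt₀ h1)
  have h3 : (fun i : ℕ => -((p : ℝ) ^ (i + 1))⁻¹) = fun i => (-(p : ℝ)⁻¹) * ((p : ℝ)⁻¹) ^ i := by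
    funext i
    rw [pow_succ, mul_inv, inv_pow]
    ring
  rw [h3]
  exact h2.mul_left _

lemma tendsto_Q : Tendsto (Q p) atTop (𝓝 (cp p)) := by
  have h : Multipliable fun i : ℕ => (1 + -((p : ℝ) ^ (i + 1))⁻¹) :=
    Real.multipliable_one_add_of_summable (summable_inv_pow p)
  have := h.hasProd.tendsto_prod_nat
  simp only [← sub_eq_add_neg] at this
  exact this

lemma cp_ne_zero : cp p ≠ 0 := by
  have h := tprod_one_add_ne_zero_of_summable (f := fun i : ℕ => -((p : ℝ) ^ (i + 1))⁻¹)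
    (fun i => by
      have := factor_pos p i
      rw [← sub_eq_add_neg]
      exact this.ne') ((summable_inv_pow p).norm)
  simp only [← sub_eq_add_neg] at h
  exact h

lemma cp_pos : 0 < cp p := by
  have h : 0 ≤ cp p := ge_of_tendsto' (tendsto_Q p) fun m => (Q_pos p m).le
  exact lt_of_le_of_ne h (cp_ne_zero p).symm

/-- The matrix with support `σ` built from the family `z` of columns. -/
def mat (σ : Fin n → Set (Fin n)) (z : Fin n → Fin n → ℤ_[p]) :
    Matrix (Fin n) (Fin n) ℤ_[p] :=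
  Matrix.of fun i j => maskR p (σ j) (z j) i

lemma mem_evI_univ (σ : Fin n → Set (Fin n)) (z : Fin n → Fin n → ℤ_[p]) :
    z ∈ evI p σ Finset.univ ↔ ((mat p σ z).map (PadicInt.toZMod : ℤ_[p] → ZMod p)).det ≠ 0 := by
  unfold evI
  rw [Set.mem_ofPred_eq, Finset.coe_univ, linearIndepOn_univ_iff]
  have h : ((mat p σ z).map (PadicInt.toZMod : ℤ_[p] → ZMod p)).col = col p σ z := by
    funext j
    ext i
    rw [col, ← red_maskR]
    rfl
  rw [← h, Matrix.linearIndependent_cols_iff_isUnit, Matrix.isUnit_iff_isUnit_det,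
    isUnit_iff_ne_zero]

end Pool.MP78
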