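import Pool.Agent.MP78.T7

open MeasureTheory Filter Topology
open scoped ENNReal

noncomputable section

namespace Pool.MP78

variable (p : ℕ) [hp : Fact p.Prime] {n : ℕ}

/-- Nakayama's lemma in the form used here. -/
lemma nakayama {M : Type*} [AddCommGroup M] [Module ℤ_[p] M] [Module.Finite ℤ_[p] M]
    (N : Submodule ℤ_[p] M) (h : ∀ m : M, ∃ x ∈ N, ∃ m' : M, m = x + (p : ℤ_[p]) • m') :
    N = ⊤ := by
  rw [eq_top_iff]
  have hJ : (IsLocalRing.maximalIdeal ℤ_[p]) ≤ Ideal.jacobson ⊥ :=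
    IsLocalRing.maximalIdeal_le_jacobson ⊥
  refine Submodule.le_of_le_smul_of_le_jacobson_bot (I := IsLocalRing.maximalIdeal ℤ_[p])
    Module.Finite.fg_top hJ ?_
  intro m _
  obtain ⟨x, hx, m', rfl⟩ := h m
  apply Submodule.add_mem_sup hx
  apply Submodule.smul_mem_smul _ Submodule.mem_top
  rw [PadicInt.maximalIdeal_eq_span_p]
  exact Ideal.mem_span_singleton_self _

lemma red_eq_zero {x : Fin n → ℤ_[p]} (h : red p n x = 0) : ∃ y, x = (p : ℤ_[p]) • y := by
  have h' : ∀ i, (p : ℤ_[p]) ∣ x i := by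
    intro i
    have h1 : PadicInt.toZMod (x i) = 0 := congrFun h i
    have h2 : x i ∈ RingHom.ker (PadicInt.toZMod : ℤ_[p] →+* ZMod p) := h1
    rw [PadicInt.ker_toZMod, PadicInt.maximalIdeal_eq_span_p, Ideal.mem_span_singleton] at h2
    exact h2
  choose y hy using h'
  exact ⟨y, by ext i; simp [hy i]⟩

lemma red_smul (c : ℤ_[p]) (x : Fin n → ℤ_[p]) :
    red p n (c • x) = (PadicInt.toZMod c) • red p n x := by
  ext i
  simp [red]

/-- lifting elements of the span -/
lemma span_lift (X : Set (Fin n → ℤ_[p])) (v : Fin n → ZMod p)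
    (hv : v ∈ Submodule.span (ZMod p) (red p n '' X)) :
    ∃ s ∈ Submodule.span ℤ_[p] X, red p n s = v := by
  induction hv using Submodule.span_induction with
  | mem v hv =>
    obtain ⟨x, hx, rfl⟩ := hv
    exact ⟨x, Submodule.subset_span hx, rfl⟩
  | zero => exact ⟨0, Submodule.zero_mem _, map_zero _⟩
  | add v w _ _ hv hw =>
    obtain ⟨s, hs, rfl⟩ := hv
    obtain ⟨t, ht, rfl⟩ := hw
    exact ⟨s + t, Submodule.add_mem _ hs ht, map_add _ _ _⟩
  | smul c v _ hv =>
    obtain ⟨s, hs, rfl⟩ := hv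
    refine ⟨(c.val : ℤ_[p]) • s, Submodule.smul_mem _ _ hs, ?_⟩
    rw [red_smul]
    simp

/-- the projection modulo an independent family of columns -/
lemma exists_proj {ι : Type*} [Fintype ι] (X : ι → Fin n → ℤ_[p]) (k : ℕ)
    (hcard : Fintype.card ι + k = n)
    (hk : Module.finrank (ZMod p)
      ((Fin n → ZMod p) ⧸ Submodule.span (ZMod p) (red p n '' Set.range X)) = k) :
    ∃ π : (Fin n → ℤ_[p]) →ₗ[ℤ_[p]] (Fin k → ℤ_[p]), Function.Surjective π ∧
      LinearMap.ker π = Submodule.span ℤ_[p] (Set.range X) := by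
  set S := Submodule.span (ZMod p) (red p n '' Set.range X) with hS
  let b := Module.finBasisOfFinrankEq (ZMod p) ((Fin n → ZMod p) ⧸ S) hk
  have hB : ∀ i : Fin k, ∃ B : Fin n → ℤ_[p], S.mkQ (red p n B) = b i := by
    intro i
    obtain ⟨v, hv⟩ := S.mkQ_surjective (b i)
    obtain ⟨B, hB⟩ := red_surjective p n v
    exact ⟨B, by rw [hB, hv]⟩
  choose B hB using hB
  let T1 : (ι → ℤ_[p]) →ₗ[ℤ_[p]] (Fin n → ℤ_[p]) := Fintype.linearCombination ℤ_[p] X
  let T2 : (Fin k → ℤ_[p]) →ₗ[ℤ_[p]] (Fin n → ℤ_[p]) := Fintype.linearCombination ℤ_[p] B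
  let T : ((ι → ℤ_[p]) × (Fin k → ℤ_[p])) →ₗ[ℤ_[p]] (Fin n → ℤ_[p]) := T1.coprod T2
  have hT1 : LinearMap.range T1 = Submodule.span ℤ_[p] (Set.range X) :=
    Fintype.range_linearCombination ℤ_[p] X
  have hsurj : Function.Surjective T := by
    rw [← LinearMap.range_eq_top]
    apply nakayama p
    intro e
    -- expand in the basis
    let c : Fin k → ZMod p := b.repr (S.mkQ (red p n e))
    let β : Fin k → ℤ_[p] := fun i => ((c i).val : ℤ_[p])
    have h1 : red p n (e - T2 β) ∈ S := by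
      rw [← Submodule.ker_mkQ S, LinearMap.mem_ker, map_sub, map_sub, sub_eq_zero]
      have h2 : red p n (T2 β) = ∑ i, c i • red p n (B i) := by
        simp only [T2, Fintype.linearCombination_apply, map_sum, red_smul]
        refine Finset.sum_congr rfl fun i _ => ?_
        simp [β]
      rw [h2, map_sum]
      simp only [map_smul, hB]
      exact (b.sum_repr _).symm
    obtain ⟨s, hs, hs'⟩ := span_lift p (Set.range X) _ h1
    have h3 : red p n (e - T2 β - s) = 0 := by
      rw [map_sub, hs', sub_self]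
    obtain ⟨y, hy⟩ := red_eq_zero p h3
    refine ⟨T2 β + s, ?_, y, ?_⟩
    · rw [← hT1] at hs
      obtain ⟨a, ha⟩ := hs
      refine ⟨(a, β), ?_⟩
      simp [T, ha, add_comm]
    · rw [← hy]; abel
  have hinj : Function.Injective T := by
    have hfr : Module.finrank ℤ_[p] ((ι → ℤ_[p]) × (Fin k → ℤ_[p]))
        = Module.finrank ℤ_[p] (Fin n → ℤ_[p]) := by
      simp [hcard]
    let e : ((ι → ℤ_[p]) × (Fin k → ℤ_[p])) ≃ₗ[ℤ_[p]] (Fin n → ℤ_[p]) :=
      LinearEquiv.ofFinrankEq _ _ hfr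
    have h1 : Function.Surjective (e.symm.toLinearMap ∘ₗ T) :=
      e.symm.surjective.comp hsurj
    have h2 : Function.Injective (e.symm.toLinearMap ∘ₗ T) :=
      OrzechProperty.injective_of_surjective_endomorphism _ h1
    exact Function.Injective.of_comp (f := e.symm) h2
  let Te := LinearEquiv.ofBijective T ⟨hinj, hsurj⟩
  refine ⟨LinearMap.snd ℤ_[p] _ _ ∘ₗ Te.symm.toLinearMap, ?_, ?_⟩
  · intro w
    exact ⟨Te (0, w), by simp⟩
  · rw [← hT1]
    ext x
    rw [LinearMap.mem_ker]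
    constructor
    · intro hx
      refine ⟨(Te.symm x).1, ?_⟩
      have h1 : (Te.symm x).2 = 0 := hx
      have h2 : Te (Te.symm x) = x := Te.apply_symm_apply x
      have h3 : T (Te.symm x) = x := h2
      simp only [T, LinearMap.coprod_apply, h1, map_zero, add_zero] at h3
      exact h3
    · rintro ⟨a, rfl⟩
      have h1 : T1 a = Te (a, 0) := by
        change T1 a = T (a, 0)
        simp [T]
      rw [h1]
      simp

end Pool.MP78
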