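import Pool.Agent.MP78.T8

open MeasureTheory Filter Topology
open scoped ENNReal

noncomputable section

namespace Pool.MP78

variable (p : ℕ) [hp : Fact p.Prime] {n : ℕ}

/-- true columns -/
def colR (σ : Fin n → Set (Fin n)) (z : Fin n → Fin n → ℤ_[p]) (j : Fin n) : Fin n → ℤ_[p] :=
  maskR p (σ j) (z j)

lemma red_colR (σ : Fin n → Set (Fin n)) (z : Fin n → Fin n → ℤ_[p]) (j : Fin n) :
    red p n (colR p σ z j) = col p σ z j := red_maskR p _ _

lemma spn_eq (σ : Fin n → Set (Fin n)) (A : Finset (Fin n)) (z : Fin n → Fin n → ℤ_[p]) :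
    spn p σ A z = Submodule.span (ZMod p) (red p n '' Set.range (fun j : A => colR p σ z j)) := by
  unfold spn
  congr 1
  ext v
  simp only [Set.mem_image, Set.mem_range, exists_exists_eq_and, red_colR]
  constructor
  · rintro ⟨j, hj, rfl⟩
    exact ⟨⟨j, hj⟩, rfl⟩
  · rintro ⟨⟨j, hj⟩, rfl⟩
    exact ⟨j, hj, rfl⟩

lemma exists_proj_good (σ : Fin n → Set (Fin n)) (A : Finset (Fin n)) (k : ℕ)
    (hA : A.card + k = n) (z : Fin n → Fin n → ℤ_[p]) (hz : z ∈ evG p σ A) :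
    ∃ π : (Fin n → ℤ_[p]) →ₗ[ℤ_[p]] (Fin k → ℤ_[p]), Function.Surjective π ∧
      LinearMap.ker π = Submodule.span ℤ_[p] (Set.range (fun j : A => colR p σ z j)) ∧
      ∀ j ∉ A, Function.Surjective (π ∘ₗ maskR p (σ j)) := by
  have hfr := finrank_quot_spn p σ A z hz.1
  obtain ⟨π, hπ, hker⟩ := exists_proj p (fun j : A => colR p σ z j) k (by simpa using hA) (by
    rw [← spn_eq, hfr]; omega)
  refine ⟨π, hπ, hker, ?_⟩
  intro j hj
  have hN := hz.2 j hj
  unfold evN at hN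
  simp only [Set.mem_ofPred_eq, not_not] at hN
  rw [← LinearMap.range_eq_top]
  apply nakayama p
  intro w
  obtain ⟨e, rfl⟩ := hπ w
  obtain ⟨y, hy⟩ := hN ((spn p σ A z).mkQ (red p n e))
  obtain ⟨Y, rfl⟩ := red_surjective p n y
  have h1 : red p n (e - maskR p (σ j) Y) ∈ spn p σ A z := by
    rw [← Submodule.ker_mkQ (spn p σ A z), LinearMap.mem_ker, map_sub, map_sub, sub_eq_zero,
      ← hy, red_maskR]
    rfl
  rw [spn_eq] at h1
  obtain ⟨s, hs, hs'⟩ := span_lift p _ _ h1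
  have h3 : red p n (e - maskR p (σ j) Y - s) = 0 := by
    rw [map_sub, hs', sub_self]
  obtain ⟨y', hy'⟩ := red_eq_zero p h3
  rw [← hker, LinearMap.mem_ker] at hs
  refine ⟨π (maskR p (σ j) Y), ⟨Y, rfl⟩, π y', ?_⟩
  rw [← map_smul, ← hy', map_sub, map_sub, hs]
  abel

lemma range_mat (σ : Fin n → Set (Fin n)) (z : Fin n → Fin n → ℤ_[p]) :
    LinearMap.range (mat p σ z).mulVecLin = Submodule.span ℤ_[p] (Set.range (colR p σ z)) := by
  rw [Matrix.range_mulVecLin]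
  rfl

lemma cok_equiv (σ : Fin n → Set (Fin n)) (A : Finset (Fin n)) (k : ℕ)
    (z : Fin n → Fin n → ℤ_[p]) (π : (Fin n → ℤ_[p]) →ₗ[ℤ_[p]] (Fin k → ℤ_[p]))
    (hπ : Function.Surjective π)
    (hker : LinearMap.ker π = Submodule.span ℤ_[p] (Set.range (fun j : A => colR p σ z j))) :
    Nonempty (cok p (mat p σ z) ≃ₗ[ℤ_[p]] ((Fin k → ℤ_[p]) ⧸
      Submodule.span ℤ_[p] (Set.range (fun j : {j // j ∉ A} => π (maskR p (σ j) (z j)))))) := by
  set N := Submodule.span ℤ_[p] (Set.range (fun j : {j // j ∉ A} => π (maskR p (σ j) (z j))))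
    with hN
  have hN' : N = Submodule.map π
      (Submodule.span ℤ_[p] (Set.range (fun j : {j // j ∉ A} => colR p σ z j))) := by
    rw [hN, Submodule.map_span, ← Set.range_comp]
    rfl
  have hk : LinearMap.ker (N.mkQ ∘ₗ π) = LinearMap.range (mat p σ z).mulVecLin := by
    rw [LinearMap.ker_comp, Submodule.ker_mkQ, hN', Submodule.comap_map_eq, hker, range_mat,
      ← Submodule.span_union]
    congr 1
    ext v
    simp only [Set.mem_union, Set.mem_range]
    constructor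
    · rintro (⟨j, rfl⟩ | ⟨j, rfl⟩)
      · exact ⟨j, rfl⟩
      · exact ⟨j, rfl⟩
    · rintro ⟨j, rfl⟩
      by_cases hj : j ∈ A
      · right; exact ⟨⟨j, hj⟩, rfl⟩
      · left; exact ⟨⟨j, hj⟩, rfl⟩
  exact ⟨(Submodule.quotEquivOfEq _ _ hk.symm).trans
    (LinearMap.quotKerEquivOfSurjective (N.mkQ ∘ₗ π) (N.mkQ_surjective.comp hπ))⟩

end Pool.MP78
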